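import Mathlib

set_option autoImplicit false

namespace Pool.Agent.Helper97.Dix

open MvPolynomial

section comp

variable {σ R : Type*} [CommRing R]

/-- All homogeneous components of degree at least `e` vanish. -/
def DL (e : ℕ) (f : MvPolynomial σ R) : Prop := ∀ m, e ≤ m → homogeneousComponent m f = 0

theorem DL.zero (e : ℕ) : DL e (0 : MvPolynomial σ R) := fun m _ => by simp

theorem DL.add {e : ℕ} {f g : MvPolynomial σ R} (hf : DL e f) (hg : DL e g) : DL e (f + g) :=
  fun m hm => by rw [map_add, hf m hm, hg m hm, add_zero]

theorem DL.neg {e : ℕ} {f : MvPolynomial σ R} (hf : DL e f) : DL e (-f) :=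
  fun m hm => by rw [map_neg, hf m hm, neg_zero]

theorem DL.sub {e : ℕ} {f g : MvPolynomial σ R} (hf : DL e f) (hg : DL e g) : DL e (f - g) :=
  fun m hm => by rw [map_sub, hf m hm, hg m hm, sub_zero]

theorem DL.mono {e e' : ℕ} {f : MvPolynomial σ R} (hf : DL e f) (h : e ≤ e') : DL e' f :=
  fun m hm => hf m (h.trans hm)

theorem DL.of_homog {e n : ℕ} {f : MvPolynomial σ R} (hf : f.IsHomogeneous n) (h : n < e) :
    DL e f := fun m hm => by
  rw [homogeneousComponent_of_mem hf, if_neg (by omega)]

theorem dl_zero_iff {f : MvPolynomial σ R} : DL 0 f ↔ f = 0 := by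
  constructor
  · intro h
    rw [← sum_homogeneousComponent f]
    exact Finset.sum_eq_zero fun i _ => h i (Nat.zero_le _)
  · rintro rfl; exact DL.zero 0

theorem dl_succ_iff {n : ℕ} {f : MvPolynomial σ R} : DL (n + 1) f ↔ f.totalDegree ≤ n := by
  constructor
  · intro h
    rw [← sum_homogeneousComponent f]
    refine totalDegree_finsetSum_le fun i _ => ?_
    by_cases hi : i ≤ n
    · exact (homogeneousComponent_isHomogeneous i f).totalDegree_le.trans hi
    · rw [h i (by omega)]; simp
  · intro h m hm
    exact homogeneousComponent_eq_zero _ _ (by omega)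

theorem DL.mul {a b : ℕ} {f g : MvPolynomial σ R} (hf : DL (a + 1) f) (hg : DL (b + 1) g) :
    DL (a + b + 1) (f * g) := by
  rw [dl_succ_iff] at *
  exact (totalDegree_mul _ _).trans (Nat.add_le_add hf hg)

/-- Removing the top component lowers the degree. -/
theorem DL.sub_top {a : ℕ} {f : MvPolynomial σ R} (hf : DL (a + 1) f) :
    DL a (f - homogeneousComponent a f) := by
  intro m hm
  rw [map_sub, homogeneousComponent_of_mem (homogeneousComponent_isHomogeneous a f)]
  rcases Nat.eq_or_lt_of_le hm with rfl | h
  · simp
  · rw [hf m h, if_neg (by omega), sub_zero]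

theorem hc_mul_add {f g : MvPolynomial σ R} {m : ℕ} (hg : g.IsHomogeneous m) (n : ℕ) :
    homogeneousComponent (n + m) (f * g) = homogeneousComponent n f * g := by
  classical
  conv_lhs => rw [← sum_homogeneousComponent f, Finset.sum_mul, map_sum]
  have h1 : ∀ i, homogeneousComponent (n + m) (homogeneousComponent i f * g) =
      if n = i then homogeneousComponent n f * g else 0 := by
    intro i
    rw [homogeneousComponent_of_mem ((homogeneousComponent_isHomogeneous i f).mul hg)]
    by_cases h : n = i
    · subst h; simp
    · rw [if_neg (by omega), if_neg h]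
  simp only [h1]
  rw [Finset.sum_ite_eq]
  split_ifs with h
  · rfl
  · rw [homogeneousComponent_eq_zero n f (by simpa using h), zero_mul]

theorem hc_mul_lt {f g : MvPolynomial σ R} {m : ℕ} (hg : g.IsHomogeneous m) {n : ℕ} (h : n < m) :
    homogeneousComponent n (f * g) = 0 := by
  classical
  conv_lhs => rw [← sum_homogeneousComponent f, Finset.sum_mul, map_sum]
  refine Finset.sum_eq_zero fun i _ => ?_
  rw [homogeneousComponent_of_mem ((homogeneousComponent_isHomogeneous i f).mul hg),
    if_neg (by omega)]

theorem hc_top_mul {f g : MvPolynomial σ R} {a b : ℕ} (hf : DL (a + 1) f) (hg : DL (b + 1) g) :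
    homogeneousComponent (a + b) (f * g) = homogeneousComponent a f * homogeneousComponent b g := by
  have h1 : f * g = f * homogeneousComponent b g + f * (g - homogeneousComponent b g) := by ring
  rw [h1, map_add, hc_mul_add (homogeneousComponent_isHomogeneous b g)]
  have h2 : homogeneousComponent (a + b) (f * (g - homogeneousComponent b g)) = 0 := by
    rcases b with _ | b
    · have := hg.sub_top
      rw [dl_zero_iff] at this
      rw [this]; simp
    · exact (hf.mul (hg.sub_top)) _ (by omega)
  rw [h2, add_zero]

end comp

section cmap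

variable {k σ T T' : Type*} [CommRing k] [CommRing T] [Algebra k T] [CommRing T'] [Algebra k T']

/-- Apply a linear map to all coefficients. -/
noncomputable def cmap (L : T →ₗ[k] T') (f : MvPolynomial σ T) : MvPolynomial σ T' :=
  ∑ m ∈ f.support, monomial m (L (coeff m f))

theorem coeff_cmap (L : T →ₗ[k] T') (f : MvPolynomial σ T) (m : σ →₀ ℕ) :
    coeff m (cmap L f) = L (coeff m f) := by
  classical
  rw [cmap, coeff_sum]
  simp only [coeff_monomial]
  rw [Finset.sum_ite_eq']
  split_ifs with h
  · rfl
  · rw [notMem_support_iff.mp h, map_zero]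

theorem cmap_mul (L : T →ₗ[k] T') (f : MvPolynomial σ T) (q : MvPolynomial σ k) :
    cmap L (f * map (algebraMap k T) q) = cmap L f * map (algebraMap k T') q := by
  classical
  ext m
  rw [coeff_cmap, coeff_mul, coeff_mul, map_sum]
  refine Finset.sum_congr rfl fun p _ => ?_
  rw [coeff_map, coeff_map, coeff_cmap, mul_comm, ← Algebra.smul_def, map_smul, Algebra.smul_def,
    mul_comm]

end cmap

end Pool.Agent.Helper97.Dix
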