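import Mathlib

set_option autoImplicit false

/-!
Definitions used in the statements about tensor products of Poisson potential quotients.
-/

namespace Pool.Agent.Helper97.Dix

open MvPolynomial TensorProduct

variable {k : Type*} [Field k]

/-- The ideal generated by the three partial derivatives of `Ω`. -/
noncomputable def jacIdeal (Ω : MvPolynomial (Fin 3) k) : Ideal (MvPolynomial (Fin 3) k) :=
  Ideal.span (Set.range fun c => pderiv c Ω)

/-- `Ω` is an i.s. potential of degree `N`: it is homogeneous of degree `N` and the quotient of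
`k[x, y, z]` by the ideal of its partial derivatives is finite dimensional. -/
structure IsISPotential (Ω : MvPolynomial (Fin 3) k) (N : ℕ) : Prop where
  homogeneous : Ω.IsHomogeneous N
  finite : Module.Finite k (MvPolynomial (Fin 3) k ⧸ jacIdeal Ω)

/-- The gradient of a polynomial. -/
noncomputable def grad (f : MvPolynomial (Fin 3) k) : Fin 3 → MvPolynomial (Fin 3) k :=
  fun c => pderiv c f

/-- The bracket `{f, g} = det (∇f, ∇g, ∇Ω)` on `k[x, y, z]`. -/
noncomputable def jacBr (Ω f g : MvPolynomial (Fin 3) k) : MvPolynomial (Fin 3) k :=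
  Matrix.det (Matrix.of ![grad f, grad g, grad Ω])

/-- The algebra `k[x, y, z] / (Ω - ξ)`. -/
def PotQuot (Ω : MvPolynomial (Fin 3) k) (ξ : k) : Type _ :=
  MvPolynomial (Fin 3) k ⧸ Ideal.span {Ω - C ξ}

/-- The ring structure of `k[x, y, z] / (Ω - ξ)`. -/
noncomputable def commRingPotQuot (Ω : MvPolynomial (Fin 3) k) (ξ : k) :
    CommRing (PotQuot Ω ξ) := Ideal.Quotient.commRing (Ideal.span {Ω - C ξ})

attribute [instance] commRingPotQuot

/-- The algebra structure of `k[x, y, z] / (Ω - ξ)`. -/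
noncomputable def algebraPotQuot (Ω : MvPolynomial (Fin 3) k) (ξ : k) :
    Algebra k (PotQuot Ω ξ) := Ideal.instAlgebraQuotient k (Ideal.span {Ω - C ξ})

attribute [instance] algebraPotQuot

/-- The quotient map from `k[x, y, z]` to `k[x, y, z] / (Ω - ξ)`. -/
noncomputable def potMk (Ω : MvPolynomial (Fin 3) k) (ξ : k) :
    MvPolynomial (Fin 3) k →ₐ[k] PotQuot Ω ξ :=
  Ideal.Quotient.mkₐ k (Ideal.span {Ω - C ξ})

theorem potMk_surjective (Ω : MvPolynomial (Fin 3) k) (ξ : k) :
    Function.Surjective (potMk Ω ξ) := Ideal.Quotient.mk_surjective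

theorem potMk_eq_zero {Ω : MvPolynomial (Fin 3) k} {ξ : k} {f : MvPolynomial (Fin 3) k} :
    potMk Ω ξ f = 0 ↔ f ∈ Ideal.span {Ω - C ξ} := Ideal.Quotient.eq_zero_iff_mem

/-- The bracket of two elements of `k[x, y, z] / (Ω - ξ)`: the class of the bracket of
representatives (it does not depend on their choice by `quotBrFun_mk`). -/
noncomputable def quotBrFun (Ω : MvPolynomial (Fin 3) k) (ξ : k) (a b : PotQuot Ω ξ) :
    PotQuot Ω ξ :=
  potMk Ω ξ (jacBr Ω (Function.surjInv (potMk_surjective Ω ξ) a)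
    (Function.surjInv (potMk_surjective Ω ξ) b))

theorem jacBr_eq (Ω f g : MvPolynomial (Fin 3) k) : jacBr Ω f g =
    pderiv 0 f * pderiv 1 g * pderiv 2 Ω - pderiv 0 f * pderiv 2 g * pderiv 1 Ω -
    pderiv 1 f * pderiv 0 g * pderiv 2 Ω + pderiv 1 f * pderiv 2 g * pderiv 0 Ω +
    pderiv 2 f * pderiv 0 g * pderiv 1 Ω - pderiv 2 f * pderiv 1 g * pderiv 0 Ω := by
  simp [jacBr, grad, Matrix.det_fin_three]

theorem jacBr_skew (Ω f g : MvPolynomial (Fin 3) k) : jacBr Ω f g = - jacBr Ω g f := by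
  rw [jacBr_eq, jacBr_eq]; ring

theorem jacBr_add (Ω f f' g : MvPolynomial (Fin 3) k) :
    jacBr Ω (f + f') g = jacBr Ω f g + jacBr Ω f' g := by
  simp only [jacBr_eq, map_add]; ring

theorem jacBr_smul (Ω f g : MvPolynomial (Fin 3) k) (r : k) :
    jacBr Ω (r • f) g = r • jacBr Ω f g := by
  simp only [jacBr_eq, Derivation.map_smul]
  simp only [smul_eq_C_mul]
  ring

theorem jacBr_mul_pot (Ω f g : MvPolynomial (Fin 3) k) (ξ : k) :
    jacBr Ω (f * (Ω - C ξ)) g = jacBr Ω f g * (Ω - C ξ) := by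
  simp only [jacBr_eq, Derivation.leibniz, map_sub, pderiv_C, smul_eq_mul, sub_zero]; ring

/-- The class of the bracket depends only on the class of the first argument. -/
theorem jacBr_congr_left {Ω f f' : MvPolynomial (Fin 3) k} {ξ : k}
    (h : potMk Ω ξ f = potMk Ω ξ f') (g : MvPolynomial (Fin 3) k) :
    potMk Ω ξ (jacBr Ω f g) = potMk Ω ξ (jacBr Ω f' g) := by
  rw [← sub_eq_zero, ← map_sub, potMk_eq_zero, Ideal.mem_span_singleton'] at h ⊢
  obtain ⟨q, hq⟩ := h
  refine ⟨jacBr Ω q g, ?_⟩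
  rw [← jacBr_mul_pot, hq, sub_eq_add_neg, jacBr_add, ← neg_one_smul k f', jacBr_smul,
    neg_one_smul, ← sub_eq_add_neg]

/-- The class of the bracket depends only on the classes of both arguments. -/
theorem quotBrFun_mk (Ω : MvPolynomial (Fin 3) k) (ξ : k) (f g : MvPolynomial (Fin 3) k) :
    quotBrFun Ω ξ (potMk Ω ξ f) (potMk Ω ξ g) = potMk Ω ξ (jacBr Ω f g) := by
  have h : ∀ a, potMk Ω ξ (Function.surjInv (potMk_surjective Ω ξ) a) = a :=
    Function.surjInv_eq (potMk_surjective Ω ξ)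
  rw [quotBrFun, jacBr_congr_left (h (potMk Ω ξ f)), jacBr_skew, map_neg,
    jacBr_congr_left (h (potMk Ω ξ g)), ← map_neg, ← jacBr_skew]

theorem quotBrFun_skew (Ω : MvPolynomial (Fin 3) k) (ξ : k) (a b : PotQuot Ω ξ) :
    quotBrFun Ω ξ a b = - quotBrFun Ω ξ b a := by
  rw [quotBrFun, quotBrFun, jacBr_skew, map_neg]

theorem quotBrFun_add (Ω : MvPolynomial (Fin 3) k) (ξ : k) (a a' b : PotQuot Ω ξ) :
    quotBrFun Ω ξ (a + a') b = quotBrFun Ω ξ a b + quotBrFun Ω ξ a' b := by
  obtain ⟨f, rfl⟩ := potMk_surjective Ω ξ a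
  obtain ⟨f', rfl⟩ := potMk_surjective Ω ξ a'
  obtain ⟨g, rfl⟩ := potMk_surjective Ω ξ b
  rw [← map_add, quotBrFun_mk, quotBrFun_mk, quotBrFun_mk, jacBr_add, map_add]

theorem quotBrFun_smul (Ω : MvPolynomial (Fin 3) k) (ξ : k) (r : k) (a b : PotQuot Ω ξ) :
    quotBrFun Ω ξ (r • a) b = r • quotBrFun Ω ξ a b := by
  obtain ⟨f, rfl⟩ := potMk_surjective Ω ξ a
  obtain ⟨g, rfl⟩ := potMk_surjective Ω ξ b
  rw [← map_smul, quotBrFun_mk, quotBrFun_mk, jacBr_smul, map_smul]

/-- The bracket of `k[x, y, z] / (Ω - ξ)` as a bilinear map. -/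
noncomputable def quotBr (Ω : MvPolynomial (Fin 3) k) (ξ : k) :
    PotQuot Ω ξ →ₗ[k] PotQuot Ω ξ →ₗ[k] PotQuot Ω ξ :=
  LinearMap.mk₂ k (quotBrFun Ω ξ) (quotBrFun_add Ω ξ) (quotBrFun_smul Ω ξ)
    (fun a b b' => by
      rw [quotBrFun_skew, quotBrFun_add, neg_add, ← quotBrFun_skew, ← quotBrFun_skew])
    (fun r a b => by rw [quotBrFun_skew, quotBrFun_smul, ← smul_neg, ← quotBrFun_skew])

theorem quotBr_mk (Ω : MvPolynomial (Fin 3) k) (ξ : k) (f g : MvPolynomial (Fin 3) k) :
    quotBr Ω ξ (potMk Ω ξ f) (potMk Ω ξ g) = potMk Ω ξ (jacBr Ω f g) := quotBrFun_mk Ω ξ f g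

section tensor

/-- The bilinear map of a tensor product of modules given by a family of bilinear maps: on pure
tensors, `⊗ x_i` and `⊗ y_i` are sent to `⊗ f_i (x_i, y_i)`. -/
noncomputable def tensorMap {R ι : Type*} [CommSemiring R] {M : ι → Type*}
    [∀ i, AddCommMonoid (M i)] [∀ i, Module R (M i)] (f : (i : ι) → M i →ₗ[R] M i →ₗ[R] M i)
    (a b : ⨂[R] i, M i) : ⨂[R] i, M i := PiTensorProduct.map₂ f a b

variable {R ι : Type*} [CommRing R] [DecidableEq ι] {A : ι → Type*} [∀ i, CommRing (A i)]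
  [∀ i, Algebra R (A i)]

/-- The bilinear map of the factor `j` used in the `i`-th summand of the bracket of a tensor
product: the bracket `br j` if `j = i` and the multiplication otherwise. -/
noncomputable def slot (br : (i : ι) → A i →ₗ[R] A i →ₗ[R] A i) (i j : ι) :
    A j →ₗ[R] A j →ₗ[R] A j :=
  if j = i then br j else LinearMap.mul R (A j)

/-- The bracket of a tensor product of algebras `A i` with brackets `br i`: the sum over `i` of
the bilinear maps which apply the bracket in the factor `i` and the multiplication in all other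
factors. -/
noncomputable def tensorBr [Fintype ι] (br : (i : ι) → A i →ₗ[R] A i →ₗ[R] A i)
    (a b : ⨂[R] i, A i) : ⨂[R] i, A i :=
  ∑ i, tensorMap (slot br i) a b

/-- The bracket on pure tensors. -/
theorem tensorBr_tprod [Fintype ι] (br : (i : ι) → A i →ₗ[R] A i →ₗ[R] A i)
    (b c : (i : ι) → A i) :
    tensorBr br (PiTensorProduct.tprod R b) (PiTensorProduct.tprod R c) =
      ∑ i, PiTensorProduct.tprod R (Function.update (b * c) i (br i (b i) (c i))) := by
  simp only [tensorBr, tensorMap, PiTensorProduct.map₂_tprod_tprod]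
  refine Finset.sum_congr rfl fun i _ => ?_
  congr 1
  ext j
  by_cases h : j = i
  · subst h; simp [slot]
  · simp [slot, h]

end tensor

variable {ι : Type*}

/-- The tensor product over `k` of the algebras `k[x, y, z] / (Ω_i - ξ_i)`. -/
def TensPot (Ω : ι → MvPolynomial (Fin 3) k) (ξ : ι → k) : Type _ :=
  ⨂[k] i, PotQuot (Ω i) (ξ i)

/-- The ring structure of the tensor product. -/
noncomputable def commRingTensPot (Ω : ι → MvPolynomial (Fin 3) k) (ξ : ι → k) :
    CommRing (TensPot Ω ξ) := PiTensorProduct.instCommRing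

attribute [instance] commRingTensPot

/-- The algebra structure of the tensor product. -/
noncomputable def algebraTensPot (Ω : ι → MvPolynomial (Fin 3) k) (ξ : ι → k) :
    Algebra k (TensPot Ω ξ) := PiTensorProduct.instAlgebra

attribute [instance] algebraTensPot

variable [DecidableEq ι] [Fintype ι]

/-- The bracket of the tensor product of the Poisson algebras `k[x, y, z] / (Ω_i - ξ_i)`. -/
noncomputable def tensBr (Ω : ι → MvPolynomial (Fin 3) k) (ξ : ι → k) (a b : TensPot Ω ξ) :
    TensPot Ω ξ := tensorBr (fun i => quotBr (Ω i) (ξ i)) a b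

/-- A Poisson endomorphism of the tensor product: it preserves the bracket. -/
def IsPoissonEnd (Ω : ι → MvPolynomial (Fin 3) k) (ξ : ι → k)
    (φ : TensPot Ω ξ →ₐ[k] TensPot Ω ξ) : Prop :=
  ∀ a b, φ (tensBr Ω ξ a b) = tensBr Ω ξ (φ a) (φ b)

/-- The Dixmier property of the tensor product: all injective Poisson endomorphisms are
bijective. -/
def IsDixmier (Ω : ι → MvPolynomial (Fin 3) k) (ξ : ι → k) : Prop :=
  ∀ φ : TensPot Ω ξ →ₐ[k] TensPot Ω ξ, IsPoissonEnd Ω ξ φ → Function.Injective φ →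
    Function.Bijective φ

end Pool.Agent.Helper97.Dix
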