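import Mathlib

set_option autoImplicit false

namespace Pool.Agent.Helper97.Dix

open MvPolynomial

variable {F : Type*} [Field F]

/-- In three variables, the maximal ideal at the origin has height at least three. -/
theorem three_le_height :
    3 ≤ (RingHom.ker (constantCoeff : MvPolynomial (Fin 3) F →+* F)).height := by
  classical
  obtain ⟨f1, hf1⟩ : ∃ f : MvPolynomial (Fin 3) F →ₐ[F] MvPolynomial (Fin 3) F,
    ∀ i, f (X i) = (![0, X 1, X 2] : Fin 3 → MvPolynomial (Fin 3) F) i := ⟨aeval _, aeval_X _⟩
  obtain ⟨f2, hf2⟩ : ∃ f : MvPolynomial (Fin 3) F →ₐ[F] MvPolynomial (Fin 3) F,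
    ∀ i, f (X i) = (![0, 0, X 2] : Fin 3 → MvPolynomial (Fin 3) F) i := ⟨aeval _, aeval_X _⟩
  obtain ⟨f3, hf3⟩ : ∃ f : MvPolynomial (Fin 3) F →ₐ[F] MvPolynomial (Fin 3) F,
    ∀ i, f (X i) = (![0, 0, 0] : Fin 3 → MvPolynomial (Fin 3) F) i := ⟨aeval _, aeval_X _⟩
  have h01 : (⊥ : Ideal (MvPolynomial (Fin 3) F)) < RingHom.ker f1 := by
    rw [bot_lt_iff_ne_bot]
    intro h
    have : (X 0 : MvPolynomial (Fin 3) F) ∈ RingHom.ker f1 := by simp [RingHom.mem_ker, hf1]
    rw [h] at this
    exact X_ne_zero _ this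
  have h12 : RingHom.ker f1 < RingHom.ker f2 := by
    refine lt_of_le_of_ne ?_ ?_
    · intro x hx
      have hc : f2 = f2.comp f1 := by
        apply MvPolynomial.algHom_ext
        intro i
        fin_cases i <;> simp [hf1, hf2]
      rw [RingHom.mem_ker] at hx ⊢
      rw [hc, AlgHom.comp_apply, hx, map_zero]
    · intro h
      have : (X 1 : MvPolynomial (Fin 3) F) ∈ RingHom.ker f2 := by simp [RingHom.mem_ker, hf2]
      rw [← h] at this
      simp [RingHom.mem_ker, hf1] at this
  have h23 : RingHom.ker f2 < RingHom.ker f3 := by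
    refine lt_of_le_of_ne ?_ ?_
    · intro x hx
      have hc : f3 = f3.comp f2 := by
        apply MvPolynomial.algHom_ext
        intro i
        fin_cases i <;> simp [hf2, hf3]
      rw [RingHom.mem_ker] at hx ⊢
      rw [hc, AlgHom.comp_apply, hx, map_zero]
    · intro h
      have : (X 2 : MvPolynomial (Fin 3) F) ∈ RingHom.ker f3 := by simp [RingHom.mem_ker, hf3]
      rw [← h] at this
      simp [RingHom.mem_ker, hf2] at this
  have h33 : RingHom.ker f3 = RingHom.ker (constantCoeff : MvPolynomial (Fin 3) F →+* F) := by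
    have hc : (f3 : MvPolynomial (Fin 3) F →+* MvPolynomial (Fin 3) F) =
        (C : F →+* MvPolynomial (Fin 3) F).comp constantCoeff := by
      apply MvPolynomial.ringHom_ext
      · intro r
        simp only [RingHom.coe_coe, RingHom.coe_comp, Function.comp_apply, constantCoeff_C]
        exact f3.commutes r
      · intro i; fin_cases i <;> simp [hf3]
    ext x
    have hx : f3 x = C (constantCoeff x) := by
      have := congrArg (fun g : MvPolynomial (Fin 3) F →+* MvPolynomial (Fin 3) F => g x) hc
      simpa using this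
    rw [RingHom.mem_ker, RingHom.mem_ker, hx, C_eq_zero]
  have p1 : (RingHom.ker f1).IsPrime := RingHom.ker_isPrime _
  have p2 : (RingHom.ker f2).IsPrime := RingHom.ker_isPrime _
  have p3 : (RingHom.ker f3).IsPrime := RingHom.ker_isPrime _
  have p0 : (⊥ : Ideal (MvPolynomial (Fin 3) F)).IsPrime := Ideal.isPrime_bot
  have e1 := Ideal.height_add_one_le_of_lt_of_isPrime h01
  have e2 := Ideal.height_add_one_le_of_lt_of_isPrime h12
  have e3 := Ideal.height_add_one_le_of_lt_of_isPrime h23
  rw [← h33]
  have : (3 : ℕ∞) = 0 + 1 + 1 + 1 := by norm_num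
  rw [this]
  calc (0 : ℕ∞) + 1 + 1 + 1 ≤ (⊥ : Ideal (MvPolynomial (Fin 3) F)).height + 1 + 1 + 1 := by
        gcongr; exact bot_le
    _ ≤ (RingHom.ker f1).height + 1 + 1 := by gcongr
    _ ≤ (RingHom.ker f2).height + 1 := by gcongr
    _ ≤ _ := e3

/-- No ideal generated by two elements vanishing at the origin contains a power of every variable. -/
theorem two_gen (G H : MvPolynomial (Fin 3) F) (hG : constantCoeff G = 0)
    (hH : constantCoeff H = 0) (r : ℕ) (h : ∀ c, X c ^ r ∈ Ideal.span {G, H}) : False := by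
  classical
  have pm : (RingHom.ker (constantCoeff : MvPolynomial (Fin 3) F →+* F)).IsPrime :=
    RingHom.ker_isPrime _
  have hmin : RingHom.ker (constantCoeff : MvPolynomial (Fin 3) F →+* F) ∈
      (Ideal.span (({G, H} : Finset (MvPolynomial (Fin 3) F)) :
        Set (MvPolynomial (Fin 3) F))).minimalPrimes := by
    refine ⟨⟨pm, ?_⟩, ?_⟩
    · rw [Ideal.span_le]
      intro x hx
      simp only [Finset.coe_insert, Finset.coe_singleton, Set.mem_insert_iff,
        Set.mem_singleton_iff] at hx
      rcases hx with rfl | rfl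
      · exact hG
      · exact hH
    · rintro q ⟨hq, hq'⟩ hqm x hx
      have hX : ∀ c, (X c : MvPolynomial (Fin 3) F) ∈ q := fun c =>
        hq.mem_of_pow_mem r (hq' (by
          simp only [Finset.coe_insert, Finset.coe_singleton]
          exact h c))
      have hx0 : constantCoeff x = 0 := hx
      rw [MvPolynomial.as_sum x]
      refine Ideal.sum_mem _ fun s hs => ?_
      by_cases hs0 : s = 0
      · subst hs0
        have : coeff 0 x = 0 := hx0
        simp [this]
      · obtain ⟨i, hi⟩ : ∃ i, s i ≠ 0 := by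
          by_contra hcon
          push Not at hcon
          exact hs0 (Finsupp.ext hcon)
        have : (X i : MvPolynomial (Fin 3) F) ∣ monomial s (coeff s x) := by
          rw [MvPolynomial.X_dvd_monomial]
          exact Or.inr hi
        exact Ideal.mem_of_dvd _ this (hX i)
  have h2 := Ideal.height_le_card_of_mem_minimalPrimes_span_finset hmin
  have h3 := three_le_height (F := F)
  have h4 : (3 : ℕ∞) ≤ (({G, H} : Finset (MvPolynomial (Fin 3) F)).card : ℕ∞) := h3.trans h2
  have h5 : ({G, H} : Finset (MvPolynomial (Fin 3) F)).card ≤ 2 := Finset.card_le_two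
  have h6 : (3 : ℕ∞) ≤ ((2 : ℕ) : ℕ∞) := h4.trans (by exact_mod_cast h5)
  exact absurd h6 (by norm_num)

end Pool.Agent.Helper97.Dix
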