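import Mathlib
import Pool.Agent.Helper97.Dix.Defs
import Pool.Agent.Helper97.Dix.Comp
import Pool.Agent.Helper97.Dix.Krull

set_option autoImplicit false

namespace Pool.Agent.Helper97.Dix

open MvPolynomial

variable {k : Type*} [Field k]

theorem pderiv_homog {σ R : Type*} [CommRing R] {f : MvPolynomial σ R} {n : ℕ}
    (hf : f.IsHomogeneous n) (c : σ) : (pderiv c f).IsHomogeneous (n - 1) := by
  exact hf.pderiv

variable {Ω : MvPolynomial (Fin 3) k} {N : ℕ}

theorem exists_pow_mem (h : IsISPotential Ω N) (c : Fin 3) :
    ∃ r, X c ^ r ∈ jacIdeal Ω := by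
  have hfin := h.finite
  have hint : IsIntegral k (Ideal.Quotient.mk (jacIdeal Ω) (X c)) := IsIntegral.of_finite k _
  obtain ⟨p, hp, hp0⟩ := hint
  refine ⟨p.natDegree, ?_⟩
  have hmem : Polynomial.aeval (X c : MvPolynomial (Fin 3) k) p ∈ jacIdeal Ω := by
    rw [← Ideal.Quotient.eq_zero_iff_mem]
    have : (Ideal.Quotient.mkₐ k (jacIdeal Ω)) (Polynomial.aeval (X c) p) = 0 := by
      rw [← Polynomial.aeval_algHom_apply]
      exact hp0
    exact this
  have hc : homogeneousComponent p.natDegree (Polynomial.aeval (X c : MvPolynomial (Fin 3) k) p) =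
      X c ^ p.natDegree := by
    rw [Polynomial.aeval_eq_sum_range, map_sum, Finset.sum_eq_single p.natDegree]
    · rw [Polynomial.coeff_natDegree, hp.leadingCoeff, one_smul,
        homogeneousComponent_of_mem (isHomogeneous_X_pow c _), if_pos rfl]
    · intro b _ hb
      rw [map_smul, homogeneousComponent_of_mem (isHomogeneous_X_pow c _), if_neg (Ne.symm hb),
        smul_zero]
    · intro hcon
      simp at hcon
  rw [← hc]
  rw [jacIdeal, Ideal.mem_span_range_iff_exists_fun] at hmem ⊢
  obtain ⟨a, ha⟩ := hmem
  by_cases hN : N - 1 ≤ p.natDegree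
  · refine ⟨fun i => homogeneousComponent (p.natDegree - (N - 1)) (a i), ?_⟩
    rw [← ha, map_sum]
    refine Finset.sum_congr rfl fun i _ => ?_
    have := hc_mul_add (f := a i) (pderiv_homog h.homogeneous i) (p.natDegree - (N - 1))
    rw [← this, Nat.sub_add_cancel hN]
  · refine ⟨0, ?_⟩
    rw [← ha, map_sum]
    rw [Finset.sum_eq_zero, Finset.sum_eq_zero]
    · intro i _
      exact hc_mul_lt (pderiv_homog h.homogeneous i) (by omega)
    · intro i _; simp

theorem exists_pow (h : IsISPotential Ω N) :
    ∃ s, ∀ c, ∃ a : Fin 3 → MvPolynomial (Fin 3) k, (∀ i, (a i).IsHomogeneous s) ∧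
      X c ^ (s + (N - 1)) = ∑ i, a i * pderiv i Ω := by
  choose r hr using exists_pow_mem h
  refine ⟨∑ c, r c, fun c => ?_⟩
  have hmem : X c ^ (∑ c, r c + (N - 1)) ∈ jacIdeal Ω := by
    have hle : r c ≤ ∑ c, r c + (N - 1) :=
      (Finset.single_le_sum (fun i _ => Nat.zero_le (r i)) (Finset.mem_univ c)).trans
        (Nat.le_add_right _ _)
    exact Ideal.pow_mem_of_pow_mem _ (hr c) hle
  rw [jacIdeal, Ideal.mem_span_range_iff_exists_fun] at hmem
  obtain ⟨a, ha⟩ := hmem
  refine ⟨fun i => homogeneousComponent (∑ c, r c) (a i),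
    fun i => homogeneousComponent_isHomogeneous _ _, ?_⟩
  have h1 : homogeneousComponent (∑ c, r c + (N - 1))
      (X c ^ (∑ c, r c + (N - 1)) : MvPolynomial (Fin 3) k) = X c ^ (∑ c, r c + (N - 1)) := by
    rw [homogeneousComponent_of_mem (isHomogeneous_X_pow c _), if_pos rfl]
  rw [← h1, ← ha, map_sum]
  refine Finset.sum_congr rfl fun i _ => ?_
  exact hc_mul_add (pderiv_homog h.homogeneous i) _

/-- Over every field extension, no two polynomials vanishing at the origin generate an ideal
containing all the partial derivatives. -/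
theorem no_two (h : IsISPotential Ω N) (F : Type*) [Field F] [Algebra k F]
    (G H : MvPolynomial (Fin 3) F) (hG : constantCoeff G = 0) (hH : constantCoeff H = 0)
    (hd : ∀ c, map (algebraMap k F) (pderiv c Ω) ∈ Ideal.span {G, H}) : False := by
  obtain ⟨s, hs⟩ := exists_pow h
  refine two_gen G H hG hH (s + (N - 1)) fun c => ?_
  obtain ⟨a, -, ha⟩ := hs c
  have : (X c ^ (s + (N - 1)) : MvPolynomial (Fin 3) F) =
      ∑ i, map (algebraMap k F) (a i) * map (algebraMap k F) (pderiv i Ω) := by
    have := congrArg (map (algebraMap k F)) ha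
    simpa using this
  rw [this]
  exact Ideal.sum_mem _ fun i _ => Ideal.mul_mem_left _ _ (hd i)

theorem pot_ne_zero (h : IsISPotential Ω N) : Ω ≠ 0 := by
  rintro rfl
  refine no_two h k 0 0 (by simp) (by simp) fun c => ?_
  simp

theorem irreducible_map (h : IsISPotential Ω N) (hN : 1 ≤ N) (F : Type*) [Field F] [Algebra k F] :
    Irreducible (map (algebraMap k F) Ω) := by
  have hinj : Function.Injective (map (algebraMap k F) : MvPolynomial (Fin 3) k → _) :=
    map_injective _ (algebraMap k F).injective
  have hne : map (algebraMap k F) Ω ≠ 0 := by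
    rw [Ne, map_eq_zero_iff _ hinj]
    exact pot_ne_zero h
  have hhom : (map (algebraMap k F) Ω).IsHomogeneous N := h.homogeneous.map _
  constructor
  · intro hu
    have h0 : totalDegree (map (algebraMap k F) Ω) = 0 := by
      rw [MvPolynomial.isUnit_iff_totalDegree_of_isReduced] at hu
      exact hu.2
    rw [hhom.totalDegree hne] at h0
    omega
  · intro G H hGH
    by_contra hcon
    push Not at hcon
    obtain ⟨hGu, hHu⟩ := hcon
    have hG0 : G ≠ 0 := by rintro rfl; simp at hGH; exact hne hGH
    have hH0 : H ≠ 0 := by rintro rfl; simp at hGH; exact hne hGH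
    have key : ∀ P : MvPolynomial (Fin 3) F, P ≠ 0 → ¬ IsUnit P → 1 ≤ P.totalDegree := by
      intro P hP hu
      by_contra hlt
      have h0 : P.totalDegree = 0 := by omega
      rw [totalDegree_eq_zero_iff_eq_C] at h0
      apply hu
      rw [h0]
      refine IsUnit.map C (isUnit_iff_ne_zero.mpr ?_)
      intro hz
      rw [hz, C_0] at h0
      exact hP h0
    have ha := key G hG0 hGu
    have hb := key H hH0 hHu
    have hG' : homogeneousComponent G.totalDegree G ≠ 0 := by
      intro hz
      have h1 : DL (G.totalDegree + 1) G := dl_succ_iff.mpr le_rfl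
      have h2 := h1.sub_top
      rw [hz, sub_zero] at h2
      obtain ⟨n, hn⟩ : ∃ n, G.totalDegree = n + 1 := ⟨G.totalDegree - 1, by omega⟩
      rw [hn, dl_succ_iff] at h2
      omega
    have hH' : homogeneousComponent H.totalDegree H ≠ 0 := by
      intro hz
      have h1 : DL (H.totalDegree + 1) H := dl_succ_iff.mpr le_rfl
      have h2 := h1.sub_top
      rw [hz, sub_zero] at h2
      obtain ⟨n, hn⟩ : ∃ n, H.totalDegree = n + 1 := ⟨H.totalDegree - 1, by omega⟩
      rw [hn, dl_succ_iff] at h2
      omega
    have htop := hc_top_mul (dl_succ_iff.mpr (le_refl G.totalDegree))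
      (dl_succ_iff.mpr (le_refl H.totalDegree))
    rw [← hGH, homogeneousComponent_of_mem hhom] at htop
    have hEq : map (algebraMap k F) Ω =
        homogeneousComponent G.totalDegree G * homogeneousComponent H.totalDegree H := by
      split_ifs at htop with hif
      · exact htop
      · exact absurd htop.symm (mul_ne_zero hG' hH')
    refine no_two h F (homogeneousComponent G.totalDegree G)
      (homogeneousComponent H.totalDegree H) ?_ ?_ fun c => ?_
    · exact (homogeneousComponent_isHomogeneous _ G).coeff_eq_zero (by simp; omega)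
    · exact (homogeneousComponent_isHomogeneous _ H).coeff_eq_zero (by simp; omega)
    · rw [← pderiv_map, hEq, Derivation.leibniz, smul_eq_mul, smul_eq_mul]
      exact Ideal.add_mem _ (Ideal.mul_mem_right _ _ (Ideal.subset_span (by simp)))
        (Ideal.mul_mem_right _ _ (Ideal.subset_span (by simp)))

/-- An isolated singularity potential stays prime over every domain containing `k`. -/
theorem prime_map (h : IsISPotential Ω N) (hN : 1 ≤ N) (T : Type*) [CommRing T] [IsDomain T]
    [Algebra k T] : Prime (map (algebraMap k T) Ω) := by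
  have hinjT : Function.Injective (map (algebraMap k T) : MvPolynomial (Fin 3) k → _) :=
    map_injective _ (algebraMap k T).injective
  have hinjF : Function.Injective
      (map (algebraMap T (FractionRing T)) : MvPolynomial (Fin 3) T → _) :=
    map_injective _ (IsFractionRing.injective T (FractionRing T))
  have hirr := irreducible_map h hN (FractionRing T)
  have hcomp : map (algebraMap T (FractionRing T)) (map (algebraMap k T) Ω) =
      map (algebraMap k (FractionRing T)) Ω := by
    rw [map_map, ← IsScalarTower.algebraMap_eq]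
  obtain ⟨L, hL⟩ := LinearMap.exists_leftInverse_of_injective
    ((IsScalarTower.toAlgHom k T (FractionRing T)).toLinearMap)
    (LinearMap.ker_eq_bot.mpr (by
      intro x y hxy
      exact IsFractionRing.injective T (FractionRing T) hxy))
  have hL' : ∀ t, L (algebraMap T (FractionRing T) t) = t := fun t => by
    have := congrArg (fun g : T →ₗ[k] T => g t) hL
    simpa using this
  refine ⟨?_, ?_, ?_⟩
  · rw [Ne, map_eq_zero_iff _ hinjT]
    exact pot_ne_zero h
  · intro hu
    apply hirr.not_isUnit
    rw [← hcomp]
    exact hu.map _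
  · intro a b hab
    have hab' := map_dvd (map (algebraMap T (FractionRing T))) hab
    rw [hcomp, map_mul] at hab'
    have hback : ∀ f : MvPolynomial (Fin 3) T,
        map (algebraMap k (FractionRing T)) Ω ∣ map (algebraMap T (FractionRing T)) f →
        map (algebraMap k T) Ω ∣ f := by
      rintro f ⟨q, hq⟩
      refine ⟨cmap L q, ?_⟩
      rw [mul_comm, ← cmap_mul, mul_comm, ← hq]
      ext m
      rw [coeff_cmap, coeff_map, hL']
    rcases hirr.prime.dvd_or_dvd hab' with h1 | h1
    · exact Or.inl (hback _ h1)
    · exact Or.inr (hback _ h1)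

end Pool.Agent.Helper97.Dix
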