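import Mathlib
import Pool.Agent.Helper97.Dix.Pot

set_option autoImplicit false

namespace Pool.Agent.Helper97.Dix

open MvPolynomial

variable {k : Type*} [Field k] {ι : Type*} [DecidableEq ι]

/-- The copy of a polynomial in three variables in the block `i`. -/
noncomputable def blk (i : ι) : MvPolynomial (Fin 3) k →ₐ[k] MvPolynomial (ι × Fin 3) k :=
  rename (fun c => (i, c))

omit [DecidableEq ι] in
theorem blk_homog {f : MvPolynomial (Fin 3) k} {n : ℕ} (hf : f.IsHomogeneous n) (i : ι) :
    (blk i f).IsHomogeneous n := hf.rename_isHomogeneous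

omit [DecidableEq ι] in
theorem blk_X (i : ι) (c : Fin 3) : blk i (X c : MvPolynomial (Fin 3) k) = X (i, c) := by
  simp [blk]

/-- The ideal generated by the potentials of the blocks in `s`. -/
noncomputable def KI (Ω : ι → MvPolynomial (Fin 3) k) (s : Finset ι) :
    Ideal (MvPolynomial (ι × Fin 3) k) :=
  Ideal.span ((fun i => blk i (Ω i)) '' (s : Set ι))

/-- The ideal generated by the shifted potentials of the blocks in `s`. -/
noncomputable def II (Ω : ι → MvPolynomial (Fin 3) k) (ξ : ι → k) (s : Finset ι) :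
    Ideal (MvPolynomial (ι × Fin 3) k) :=
  Ideal.span ((fun i => blk i (Ω i) - C (ξ i)) '' (s : Set ι))

theorem mem_KI_insert {Ω : ι → MvPolynomial (Fin 3) k} {s : Finset ι} {j : ι}
    {F : MvPolynomial (ι × Fin 3) k} :
    F ∈ KI Ω (insert j s) ↔ ∃ q, ∃ h ∈ KI Ω s, F = q * blk j (Ω j) + h := by
  rw [KI, Finset.coe_insert, Set.image_insert_eq, Ideal.mem_span_insert]
  rfl

theorem mem_II_insert {Ω : ι → MvPolynomial (Fin 3) k} {ξ : ι → k} {s : Finset ι} {j : ι}
    {F : MvPolynomial (ι × Fin 3) k} :
    F ∈ II Ω ξ (insert j s) ↔ ∃ q, ∃ h ∈ II Ω ξ s, F = q * (blk j (Ω j) - C (ξ j)) + h := by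
  rw [II, Finset.coe_insert, Set.image_insert_eq, Ideal.mem_span_insert]
  rfl

/-- Separate the variables of the block `j` from a quotient by an ideal. -/
noncomputable def sepHom (J : Ideal (MvPolynomial (ι × Fin 3) k)) (j : ι) :
    MvPolynomial (ι × Fin 3) k →ₐ[k] MvPolynomial (Fin 3) (MvPolynomial (ι × Fin 3) k ⧸ J) :=
  aeval fun p => if p.1 = j then X p.2 else C (Ideal.Quotient.mk J (X p))

/-- Put the variables of the block `j` back. -/
noncomputable def backHom (J : Ideal (MvPolynomial (ι × Fin 3) k)) (j : ι) :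
    MvPolynomial (Fin 3) (MvPolynomial (ι × Fin 3) k ⧸ J) →+*
      (MvPolynomial (ι × Fin 3) k ⧸ J) :=
  eval₂Hom (RingHom.id _) (fun c => Ideal.Quotient.mk J (X (j, c)))

theorem back_sep (J : Ideal (MvPolynomial (ι × Fin 3) k)) (j : ι)
    (f : MvPolynomial (ι × Fin 3) k) : backHom J j (sepHom J j f) = Ideal.Quotient.mk J f := by
  have : (backHom J j).comp (sepHom J j : MvPolynomial (ι × Fin 3) k →+* _) =
      Ideal.Quotient.mk J := by
    apply MvPolynomial.ringHom_ext
    · intro r
      simp only [RingHom.coe_comp, RingHom.coe_coe, Function.comp_apply]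
      have h1 : sepHom J j (C r) = C (algebraMap k _ r) := (sepHom J j).commutes r
      rw [h1, backHom, eval₂Hom_C]
      rfl
    · rintro ⟨i, c⟩
      simp only [RingHom.coe_comp, RingHom.coe_coe, Function.comp_apply, sepHom, aeval_X]
      split_ifs with h
      · subst h
        simp [backHom]
      · simp [backHom]
  exact congrArg (fun g : MvPolynomial (ι × Fin 3) k →+* _ => g f) this

theorem sep_blk_self (J : Ideal (MvPolynomial (ι × Fin 3) k)) (j : ι)
    (f : MvPolynomial (Fin 3) k) : sepHom J j (blk j f) = map (algebraMap k _) f := by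
  have : ((sepHom J j).comp (blk j) : MvPolynomial (Fin 3) k →+* _) =
      map (algebraMap k (MvPolynomial (ι × Fin 3) k ⧸ J)) := by
    apply MvPolynomial.ringHom_ext
    · intro r
      rw [map_C]
      exact ((sepHom J j).comp (blk j)).commutes r
    · intro c
      simp [sepHom, blk]
  exact congrArg (fun g : MvPolynomial (Fin 3) k →+* _ => g f) this

theorem sep_blk_ne (J : Ideal (MvPolynomial (ι × Fin 3) k)) (j i : ι) (hij : i ≠ j)
    (f : MvPolynomial (Fin 3) k) :
    sepHom J j (blk i f) = C (Ideal.Quotient.mk J (blk i f)) := by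
  have : (((sepHom J j).comp (blk i) : MvPolynomial (Fin 3) k →ₐ[k] _) :
      MvPolynomial (Fin 3) k →+* MvPolynomial (Fin 3) (MvPolynomial (ι × Fin 3) k ⧸ J)) =
      (C.comp (Ideal.Quotient.mk J)).comp
        ((blk i : MvPolynomial (Fin 3) k →ₐ[k] MvPolynomial (ι × Fin 3) k) :
          MvPolynomial (Fin 3) k →+* MvPolynomial (ι × Fin 3) k) := by
    apply MvPolynomial.ringHom_ext
    · intro r
      have h1 : ((sepHom J j).comp (blk i)) (C r) = C (algebraMap k _ r) :=
        ((sepHom J j).comp (blk i)).commutes r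
      have h2 : (blk i : MvPolynomial (Fin 3) k →ₐ[k] MvPolynomial (ι × Fin 3) k) (C r) = C r :=
        (blk i).commutes r
      rw [RingHom.comp_apply, RingHom.comp_apply, RingHom.coe_coe, RingHom.coe_coe, h1, h2]
      rfl
    · intro c
      simp [sepHom, blk, hij]
  exact congrArg (fun g : MvPolynomial (Fin 3) k →+* _ => g f) this

variable {Ω : ι → MvPolynomial (Fin 3) k} {N : ι → ℕ}

theorem sep_KI {s : Finset ι} {j : ι} (hj : j ∉ s) {f : MvPolynomial (ι × Fin 3) k}
    (hf : f ∈ KI Ω s) : sepHom (KI Ω s) j f = 0 := by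
  have : KI Ω s ≤ RingHom.ker (sepHom (KI Ω s) j) := by
    conv_lhs => rw [KI]
    rw [Ideal.span_le]
    rintro _ ⟨i, hi, rfl⟩
    have hij : i ≠ j := by rintro rfl; exact hj hi
    change sepHom (KI Ω s) j (blk i (Ω i)) = 0
    rw [sep_blk_ne _ _ _ hij]
    have : blk i (Ω i) ∈ KI Ω s := Ideal.subset_span ⟨i, hi, rfl⟩
    rw [Ideal.Quotient.eq_zero_iff_mem.mpr this, C_0]
  exact this hf

theorem KI_insert_eq {s : Finset ι} {j : ι} (hj : j ∉ s) :
    KI Ω (insert j s) = (Ideal.span {map (algebraMap k _) (Ω j)}).comap (sepHom (KI Ω s) j) := by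
  apply le_antisymm
  · intro F hF
    obtain ⟨q, g, hg, rfl⟩ := mem_KI_insert.mp hF
    rw [Ideal.mem_comap, map_add, map_mul, sep_KI hj hg, sep_blk_self, add_zero]
    exact Ideal.mul_mem_left _ _ (Ideal.subset_span rfl)
  · intro F hF
    rw [Ideal.mem_comap, Ideal.mem_span_singleton'] at hF
    obtain ⟨q, hq⟩ := hF
    have h1 := congrArg (backHom (KI Ω s) j) hq
    rw [back_sep, map_mul, ← sep_blk_self, back_sep] at h1
    obtain ⟨q', hq'⟩ := Ideal.Quotient.mk_surjective (backHom (KI Ω s) j q)
    rw [← hq', ← map_mul] at h1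
    rw [mem_KI_insert]
    refine ⟨q', F - q' * blk j (Ω j), ?_, by ring⟩
    rw [← Ideal.Quotient.eq_zero_iff_mem, map_sub, h1, sub_self]

theorem KI_prime (h : ∀ i, IsISPotential (Ω i) (N i)) (hN : ∀ i, 1 ≤ N i) (s : Finset ι) :
    (KI Ω s).IsPrime := by
  induction s using Finset.induction_on with
  | empty =>
    have : KI Ω (∅ : Finset ι) = ⊥ := by simp [KI]
    rw [this]
    exact Ideal.isPrime_bot
  | insert j s hj ih =>
    rw [KI_insert_eq hj]
    have hp := prime_map (h j) (hN j) (MvPolynomial (ι × Fin 3) k ⧸ KI Ω s)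
    have := (Ideal.span_singleton_prime hp.ne_zero).mpr hp
    exact Ideal.comap_isPrime _ _

theorem blk_mem_KI (h : ∀ i, IsISPotential (Ω i) (N i)) (hN : ∀ i, 1 ≤ N i) {s : Finset ι} {j : ι}
    (hj : j ∉ s) {f : MvPolynomial (Fin 3) k} (hf : blk j f ∈ KI Ω s) : f = 0 := by
  have h1 := sep_KI hj hf
  rw [sep_blk_self] at h1
  have := KI_prime h hN s
  have hinj : Function.Injective
      (map (algebraMap k (MvPolynomial (ι × Fin 3) k ⧸ KI Ω s)) : MvPolynomial (Fin 3) k → _) :=
    map_injective _ (algebraMap k _).injective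
  exact (map_eq_zero_iff _ hinj).mp h1

theorem blk_mem_KI_of_lt (h : ∀ i, IsISPotential (Ω i) (N i)) (hN : ∀ i, 1 ≤ N i) {s : Finset ι}
    {j : ι} {f : MvPolynomial (Fin 3) k} {n : ℕ} (hf : f.IsHomogeneous n) (hn : n < N j)
    (hmem : blk j f ∈ KI Ω s) : f = 0 := by
  by_cases hj : j ∈ s
  · obtain ⟨t, ht, rfl⟩ : ∃ t, j ∉ t ∧ s = insert j t :=
      ⟨s.erase j, Finset.notMem_erase j s, (Finset.insert_erase hj).symm⟩
    rw [KI_insert_eq ht, Ideal.mem_comap, sep_blk_self, Ideal.mem_span_singleton'] at hmem
    obtain ⟨q, hq⟩ := hmem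
    have h1 := hc_mul_lt (f := q) ((h j).homogeneous.map (algebraMap k
      (MvPolynomial (ι × Fin 3) k ⧸ KI Ω t))) hn
    rw [hq, homogeneousComponent_of_mem (hf.map _), if_pos rfl] at h1
    have := KI_prime h hN t
    have hinj : Function.Injective
        (map (algebraMap k (MvPolynomial (ι × Fin 3) k ⧸ KI Ω t)) :
          MvPolynomial (Fin 3) k → _) :=
      map_injective _ (algebraMap k _).injective
    exact (map_eq_zero_iff _ hinj).mp h1
  · exact blk_mem_KI h hN hj hmem

/-- Homogeneous elements of the graded ideal lift to the filtered ideal. -/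
theorem lift_top (h : ∀ i, IsISPotential (Ω i) (N i)) (hN : ∀ i, 1 ≤ N i) (ξ : ι → k)
    (s : Finset ι) (n : ℕ) (F : MvPolynomial (ι × Fin 3) k) (hF : F ∈ KI Ω s) :
    ∃ F' ∈ II Ω ξ s, DL n (F' - homogeneousComponent n F) := by
  induction s using Finset.induction_on generalizing F with
  | empty =>
    have : F = 0 := by simpa [KI] using hF
    subst this
    exact ⟨0, Ideal.zero_mem _, by simpa using DL.zero n⟩
  | insert j s hj ih =>
    obtain ⟨q, g, hg, rfl⟩ := mem_KI_insert.mp hF
    obtain ⟨g', hg', hg''⟩ := ih g hg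
    have hhom := blk_homog (h j).homogeneous j
    by_cases hn : N j ≤ n
    · refine ⟨homogeneousComponent (n - N j) q * (blk j (Ω j) - C (ξ j)) + g', ?_, ?_⟩
      · rw [mem_II_insert]
        exact ⟨_, g', hg', rfl⟩
      · have h1 : homogeneousComponent n (q * blk j (Ω j) + g) =
            homogeneousComponent (n - N j) q * blk j (Ω j) + homogeneousComponent n g := by
          rw [map_add]
          congr 1
          have := hc_mul_add (f := q) hhom (n - N j)
          rwa [Nat.sub_add_cancel hn] at this
        rw [h1]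
        have h2 : homogeneousComponent (n - N j) q * (blk j (Ω j) - C (ξ j)) + g' -
            (homogeneousComponent (n - N j) q * blk j (Ω j) + homogeneousComponent n g) =
            (g' - homogeneousComponent n g) - C (ξ j) * homogeneousComponent (n - N j) q := by
          ring
        rw [h2]
        refine hg''.sub (DL.of_homog (n := n - N j) ?_ (by have := hN j; omega))
        exact (homogeneousComponent_isHomogeneous _ _).C_mul _
    · refine ⟨g', ?_, ?_⟩
      · rw [mem_II_insert]
        exact ⟨0, g', hg', by ring⟩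
      · rw [map_add, hc_mul_lt hhom (by omega), zero_add]
        exact hg''

/-- Top components of elements of the filtered ideal lie in the graded ideal. -/
theorem top_mem (h : ∀ i, IsISPotential (Ω i) (N i)) (hN : ∀ i, 1 ≤ N i) (ξ : ι → k)
    (s : Finset ι) (n : ℕ) (F : MvPolynomial (ι × Fin 3) k) (hF : F ∈ II Ω ξ s)
    (hn : DL (n + 1) F) : homogeneousComponent n F ∈ KI Ω s := by
  induction s using Finset.induction_on generalizing F n with
  | empty =>
    have : F = 0 := by simpa [II] using hF
    subst this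
    simp
  | insert j s hj ih =>
    have hhom := blk_homog (h j).homogeneous j
    have hprime := KI_prime h hN s
    obtain ⟨q, g, hg, hFe⟩ := mem_II_insert.mp hF
    obtain ⟨e, he⟩ : ∃ e, DL e q := ⟨q.totalDegree + 1, dl_succ_iff.mpr le_rfl⟩
    induction e generalizing q g with
    | zero =>
      rw [dl_zero_iff] at he
      subst he
      rw [zero_mul, zero_add] at hFe
      subst hFe
      rw [mem_KI_insert]
      exact ⟨0, _, ih n F hg hn, by ring⟩
    | succ e ihe =>
      have hshift : DL (N j + 1) (blk j (Ω j) - C (ξ j)) :=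
        (DL.of_homog hhom (Nat.lt_succ_self _)).sub
          (DL.of_homog (isHomogeneous_C _ _) (Nat.succ_pos _))
      have hqd : DL (e + N j + 1) (q * (blk j (Ω j) - C (ξ j))) := he.mul hshift
      have hcomp : ∀ m, homogeneousComponent (m + N j) (q * (blk j (Ω j) - C (ξ j))) =
          homogeneousComponent m q * blk j (Ω j) -
            C (ξ j) * homogeneousComponent (m + N j) q := by
        intro m
        rw [mul_sub, map_sub, hc_mul_add hhom, mul_comm q (C (ξ j)), homogeneousComponent_C_mul]
      by_cases hcase : e + N j ≤ n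
      · have hgd : DL (n + 1) g := by
          have : g = F - q * (blk j (Ω j) - C (ξ j)) := by rw [hFe]; ring
          rw [this]
          exact hn.sub (hqd.mono (by omega))
        have h1 := ih n g hg hgd
        rw [mem_KI_insert]
        obtain ⟨m, rfl⟩ : ∃ m, n = m + N j := ⟨n - N j, by omega⟩
        refine ⟨homogeneousComponent m q, homogeneousComponent (m + N j) g, h1, ?_⟩
        rw [hFe, map_add, hcomp, he (m + N j) (by have := hN j; omega), mul_zero, sub_zero]
      · have hgd : DL (e + N j + 1) g := by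
          have : g = F - q * (blk j (Ω j) - C (ξ j)) := by rw [hFe]; ring
          rw [this]
          exact (hn.mono (by omega)).sub hqd
        have h1 := ih (e + N j) g hg hgd
        have h2 : homogeneousComponent (e + N j) F = 0 := hn _ (by omega)
        rw [hFe, map_add, hcomp, he (e + N j) (by have := hN j; omega), mul_zero, sub_zero] at h2
        have h3 : homogeneousComponent e q * blk j (Ω j) ∈ KI Ω s := by
          have : homogeneousComponent e q * blk j (Ω j) = -homogeneousComponent (e + N j) g :=
            eq_neg_of_add_eq_zero_left h2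
          rw [this]
          exact (KI Ω s).neg_mem h1
        have h4 : homogeneousComponent e q ∈ KI Ω s := by
          rcases hprime.mem_or_mem h3 with h4 | h4
          · exact h4
          · exact absurd (blk_mem_KI h hN hj h4) (pot_ne_zero (h j))
        obtain ⟨q', hq', hq''⟩ := lift_top h hN ξ s e _ h4
        rw [homogeneousComponent_of_mem (homogeneousComponent_isHomogeneous e q), if_pos rfl]
          at hq''
        refine ihe (q - q') (g + q' * (blk j (Ω j) - C (ξ j)))
          (Ideal.add_mem _ hg (Ideal.mul_mem_right _ _ hq')) ?_ ?_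
        · rw [hFe]; ring
        · have : q - q' = (q - homogeneousComponent e q) - (q' - homogeneousComponent e q) := by
            ring
          rw [this]
          exact he.sub_top.sub hq''

end Pool.Agent.Helper97.Dix
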