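import Mathlib
import Pool.Agent.Helper97.Dix.Gr

set_option autoImplicit false

namespace Pool.Agent.Helper97.Dix

open MvPolynomial

theorem totalDegree_pderiv_le {σ R : Type*} [CommRing R] (F : MvPolynomial σ R) (c : σ) :
    (pderiv c F).totalDegree ≤ F.totalDegree - 1 := by
  conv_lhs => rw [← sum_homogeneousComponent F, map_sum]
  refine totalDegree_finsetSum_le fun i hi => ?_
  refine (pderiv_homog (homogeneousComponent_isHomogeneous i F) c).totalDegree_le.trans ?_
  have := Finset.mem_range.mp hi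
  omega

section Wdef

variable {k : Type*} [Field k] {σ : Type*} {T : Type*} [CommRing T] [Algebra k T]
  (π : MvPolynomial σ k →ₐ[k] T)

/-- Elements of degree at most `n`. -/
noncomputable def W (n : ℕ) : Submodule k T :=
  (restrictTotalDegree σ k n).map π.toLinearMap

theorem mem_W {n : ℕ} {f : T} : f ∈ W π n ↔ ∃ F, totalDegree F ≤ n ∧ π F = f := by
  simp only [W, Submodule.mem_map, mem_restrictTotalDegree]
  rfl

theorem W_mono {m n : ℕ} (h : m ≤ n) : W π m ≤ W π n := by
  intro f hf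
  obtain ⟨F, hF, rfl⟩ := (mem_W π).mp hf
  exact (mem_W π).mpr ⟨F, hF.trans h, rfl⟩

theorem W_mul {m n : ℕ} {f g : T} (hf : f ∈ W π m) (hg : g ∈ W π n) : f * g ∈ W π (m + n) := by
  obtain ⟨F, hF, rfl⟩ := (mem_W π).mp hf
  obtain ⟨G, hG, rfl⟩ := (mem_W π).mp hg
  exact (mem_W π).mpr ⟨F * G, (totalDegree_mul _ _).trans (Nat.add_le_add hF hG), map_mul _ _ _⟩

theorem W_one : (1 : T) ∈ W π 0 := (mem_W π).mpr ⟨1, by simp, map_one _⟩

theorem W_prod {α : Type*} (s : Finset α) (f : α → T) (n : α → ℕ) (h : ∀ i ∈ s, f i ∈ W π (n i)) :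
    ∏ i ∈ s, f i ∈ W π (∑ i ∈ s, n i) := by
  classical
  induction s using Finset.induction_on with
  | empty => simpa using W_one π
  | insert a s ha ih =>
    rw [Finset.prod_insert ha, Finset.sum_insert ha]
    exact W_mul π (h a (Finset.mem_insert_self _ _))
      (ih fun i hi => h i (Finset.mem_insert_of_mem hi))

theorem W_pow {n : ℕ} {f : T} (hf : f ∈ W π n) (r : ℕ) : f ^ r ∈ W π (r * n) := by
  have := W_prod π (Finset.range r) (fun _ => f) (fun _ => n) (fun _ _ => hf)
  simpa using this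

/-- The least degree of a representative. -/
noncomputable def D (f : T) : ℕ := sInf {n | f ∈ W π n}

theorem mem_W_iff (hπ : Function.Surjective π) {n : ℕ} {f : T} : f ∈ W π n ↔ D π f ≤ n := by
  constructor
  · intro h
    exact Nat.sInf_le h
  · intro h
    have hne : {n | f ∈ W π n}.Nonempty := by
      obtain ⟨F, rfl⟩ := hπ f
      exact ⟨F.totalDegree, (mem_W π).mpr ⟨F, le_rfl, rfl⟩⟩
    exact W_mono π h (Nat.sInf_mem hne)

theorem D_zero (hπ : Function.Surjective π) : D π (0 : T) = 0 :=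
  Nat.le_zero.mp ((mem_W_iff π hπ).mp (Submodule.zero_mem _))

theorem D_one (hπ : Function.Surjective π) : D π (1 : T) = 0 :=
  Nat.le_zero.mp ((mem_W_iff π hπ).mp (W_one π))

theorem det_mem_W {n : Type*} [Fintype n] [DecidableEq n] (M : Matrix n n T) (α β : n → ℕ)
    (h : ∀ r c, M r c ∈ W π (α r + β c)) : M.det ∈ W π (∑ r, α r + ∑ c, β c) := by
  rw [Matrix.det_apply]
  refine Submodule.sum_mem _ fun s _ => ?_
  have h1 := W_prod π Finset.univ (fun i => M (s i) i) (fun i => α (s i) + β i)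
    (fun i _ => h _ _)
  rw [Finset.sum_add_distrib, Equiv.sum_comp s α] at h1
  rcases Int.units_eq_one_or (Equiv.Perm.sign s) with hs | hs
  · rw [hs, one_smul]; exact h1
  · rw [hs, Units.neg_smul, one_smul]
    exact Submodule.neg_mem _ h1

end Wdef

section Mul

variable {k : Type*} [Field k] {ι : Type*} [DecidableEq ι] [Fintype ι]
  {Ω : ι → MvPolynomial (Fin 3) k} {N : ι → ℕ} {ξ : ι → k}
  {T : Type*} [CommRing T] [Algebra k T] {π : MvPolynomial (ι × Fin 3) k →ₐ[k] T}

/-- The standing hypotheses. -/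
structure Setup (Ω : ι → MvPolynomial (Fin 3) k) (N : ι → ℕ) (ξ : ι → k)
    (π : MvPolynomial (ι × Fin 3) k →ₐ[k] T) : Prop where
  pot : ∀ i, IsISPotential (Ω i) (N i)
  four_le : ∀ i, 4 ≤ N i
  surj : Function.Surjective π
  ker : ∀ F, π F = 0 ↔ F ∈ II Ω ξ Finset.univ

variable (S : Setup Ω N ξ π)

include S

theorem Setup.one_le (i : ι) : 1 ≤ N i := by have := S.four_le i; omega

theorem Setup.top_notMem {f : T} (hf : f ≠ 0) {F : MvPolynomial (ι × Fin 3) k} (hF : π F = f)
    (hd : F.totalDegree ≤ D π f) : homogeneousComponent (D π f) F ∉ KI Ω Finset.univ := by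
  intro hmem
  obtain ⟨F', hF', hF''⟩ := lift_top S.pot S.one_le ξ Finset.univ (D π f) _ hmem
  rw [homogeneousComponent_of_mem (homogeneousComponent_isHomogeneous _ F), if_pos rfl] at hF''
  have h1 : DL (D π f) (F - F') := by
    have : F - F' = (F - homogeneousComponent (D π f) F) -
        (F' - homogeneousComponent (D π f) F) := by ring
    rw [this]
    exact (dl_succ_iff.mpr hd).sub_top.sub hF''
  have h2 : π (F - F') = f := by rw [map_sub, (S.ker F').mpr hF', sub_zero, hF]
  rcases hm : D π f with _ | m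
  · rw [hm, dl_zero_iff] at h1
    rw [h1, map_zero] at h2
    exact hf h2.symm
  · rw [hm, dl_succ_iff] at h1
    have : D π f ≤ m := (mem_W_iff π S.surj).mp ((mem_W π).mpr ⟨_, h1, h2⟩)
    omega

theorem Setup.mul_notMem {f g : T} (hf : f ≠ 0) (hg : g ≠ 0) {H : MvPolynomial (ι × Fin 3) k}
    (hH : π H = f * g) : ¬ DL (D π f + D π g) H := by
  intro hDL
  obtain ⟨F, hF, hFf⟩ := (mem_W π).mp ((mem_W_iff π S.surj).mpr (le_refl (D π f)))
  obtain ⟨G, hG, hGg⟩ := (mem_W π).mp ((mem_W_iff π S.surj).mpr (le_refl (D π g)))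
  have h1 := S.top_notMem hf hFf hF
  have h2 := S.top_notMem hg hGg hG
  have h3 : F * G - H ∈ II Ω ξ Finset.univ := by
    rw [← S.ker, map_sub, map_mul, hFf, hGg, hH, sub_self]
  have h4 : DL (D π f + D π g + 1) (F * G - H) :=
    ((dl_succ_iff.mpr hF).mul (dl_succ_iff.mpr hG)).sub (hDL.mono (Nat.le_succ _))
  have h5 := top_mem S.pot S.one_le ξ Finset.univ _ _ h3 h4
  rw [map_sub, hDL _ le_rfl, sub_zero, hc_top_mul (dl_succ_iff.mpr hF) (dl_succ_iff.mpr hG)] at h5
  rcases (KI_prime S.pot S.one_le Finset.univ).mem_or_mem h5 with h | h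
  · exact h1 h
  · exact h2 h

theorem Setup.mul_ne_zero {f g : T} (hf : f ≠ 0) (hg : g ≠ 0) : f * g ≠ 0 := by
  intro h
  exact S.mul_notMem hf hg (H := 0) (by rw [map_zero, h]) (DL.zero _)

theorem Setup.D_mul {f g : T} (hf : f ≠ 0) (hg : g ≠ 0) : D π (f * g) = D π f + D π g := by
  apply le_antisymm
  · rw [← mem_W_iff π S.surj]
    exact W_mul π ((mem_W_iff π S.surj).mpr le_rfl) ((mem_W_iff π S.surj).mpr le_rfl)
  · by_contra hlt
    obtain ⟨H, hH, hH'⟩ := (mem_W π).mp ((mem_W_iff π S.surj).mpr (le_refl (D π (f * g))))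
    exact S.mul_notMem hf hg hH' ((dl_succ_iff.mpr hH).mono (by omega))

theorem Setup.noZeroDivisors : NoZeroDivisors T := by
  refine ⟨fun {a b} h => ?_⟩
  by_contra hcon
  push Not at hcon
  exact S.mul_ne_zero hcon.1 hcon.2 h

theorem Setup.nontrivial : Nontrivial T := by
  refine ⟨⟨1, 0, fun h => ?_⟩⟩
  have h1 : π 1 = 0 := by rw [map_one, h]
  have h2 := top_mem S.pot S.one_le ξ Finset.univ 0 1 ((S.ker 1).mp h1)
    (dl_succ_iff.mpr (by simp))
  rw [homogeneousComponent_of_mem (isHomogeneous_one _ _), if_pos rfl] at h2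
  exact (KI_prime S.pot S.one_le Finset.univ).ne_top ((Ideal.eq_top_iff_one _).mpr h2)

theorem Setup.D_prod {α : Type*} (s : Finset α) (f : α → T) (h : ∀ i ∈ s, f i ≠ 0) :
    D π (∏ i ∈ s, f i) = ∑ i ∈ s, D π (f i) := by
  classical
  have := S.noZeroDivisors
  have := S.nontrivial
  induction s using Finset.induction_on with
  | empty => simpa using D_one π S.surj
  | insert a s ha ih =>
    rw [Finset.prod_insert ha, Finset.sum_insert ha, S.D_mul (h a (Finset.mem_insert_self _ _))
      (Finset.prod_ne_zero_iff.mpr fun i hi => h i (Finset.mem_insert_of_mem hi)),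
      ih fun i hi => h i (Finset.mem_insert_of_mem hi)]

theorem Setup.D_pow {f : T} (hf : f ≠ 0) (r : ℕ) : D π (f ^ r) = r * D π f := by
  have := S.D_prod (Finset.range r) (fun _ => f) (fun _ _ => hf)
  simpa using this

/-- Homogeneous elements of the polynomial ring outside the graded ideal keep their degree. -/
theorem Setup.D_of_homog {F : MvPolynomial (ι × Fin 3) k} {n : ℕ} (hF : F.IsHomogeneous n)
    (hmem : F ∉ KI Ω Finset.univ) : π F ≠ 0 ∧ D π (π F) = n := by
  have hK : ∀ H : MvPolynomial (ι × Fin 3) k, DL n H → π H ≠ π F := by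
    intro H hH hEq
    have h1 : F - H ∈ II Ω ξ Finset.univ := by rw [← S.ker, map_sub, hEq, sub_self]
    have h2 := top_mem S.pot S.one_le ξ Finset.univ n _ h1
      ((DL.of_homog hF (Nat.lt_succ_self n)).sub (hH.mono (Nat.le_succ n)))
    rw [map_sub, hH _ le_rfl, sub_zero, homogeneousComponent_of_mem hF, if_pos rfl] at h2
    exact hmem h2
  constructor
  · intro h
    exact hK 0 (DL.zero _) (by rw [map_zero, h])
  · apply le_antisymm
    · rw [← mem_W_iff π S.surj]
      exact (mem_W π).mpr ⟨F, hF.totalDegree_le, rfl⟩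
    · by_contra hlt
      obtain ⟨H, hH, hH'⟩ := (mem_W π).mp ((mem_W_iff π S.surj).mpr (le_refl (D π (π F))))
      exact hK H ((dl_succ_iff.mpr hH).mono (by omega)) hH'

end Mul

end Pool.Agent.Helper97.Dix
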