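import Mathlib
import Pool.Agent.Helper97.Dix.Deg

set_option autoImplicit false

namespace Pool.Agent.Helper97.Dix

open MvPolynomial

section jac

variable {k : Type*} [Field k]

theorem jacBr_X (Ω : MvPolynomial (Fin 3) k) (c : Fin 3) :
    jacBr Ω (X (c + 1)) (X (c + 2)) = pderiv c Ω := by
  rw [jacBr_eq]
  fin_cases c <;> simp [pderiv_X]

end jac

section big

variable {k : Type*} [Field k] {ι : Type*} [DecidableEq ι] [Fintype ι]

/-- One block of the bracket on the big polynomial ring. -/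
noncomputable def brB (Ω : ι → MvPolynomial (Fin 3) k) (i : ι)
    (F G : MvPolynomial (ι × Fin 3) k) : MvPolynomial (ι × Fin 3) k :=
  pderiv (i, 0) F * pderiv (i, 1) G * blk i (pderiv 2 (Ω i)) -
    pderiv (i, 0) F * pderiv (i, 2) G * blk i (pderiv 1 (Ω i)) -
    pderiv (i, 1) F * pderiv (i, 0) G * blk i (pderiv 2 (Ω i)) +
    pderiv (i, 1) F * pderiv (i, 2) G * blk i (pderiv 0 (Ω i)) +
    pderiv (i, 2) F * pderiv (i, 0) G * blk i (pderiv 1 (Ω i)) -
    pderiv (i, 2) F * pderiv (i, 1) G * blk i (pderiv 0 (Ω i))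

/-- The bracket on the big polynomial ring. -/
noncomputable def brS (Ω : ι → MvPolynomial (Fin 3) k)
    (F G : MvPolynomial (ι × Fin 3) k) : MvPolynomial (ι × Fin 3) k := ∑ i, brB Ω i F G

variable (Ω : ι → MvPolynomial (Fin 3) k)

theorem brS_self (F : MvPolynomial (ι × Fin 3) k) : brS Ω F F = 0 :=
  Finset.sum_eq_zero fun i _ => by rw [brB]; ring

theorem brS_skew (F G : MvPolynomial (ι × Fin 3) k) : brS Ω F G = - brS Ω G F := by
  rw [brS, brS, ← Finset.sum_neg_distrib]
  exact Finset.sum_congr rfl fun i _ => by rw [brB, brB]; ring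

theorem pderiv_X_ne {i j : ι} (h : i ≠ j) (a c : Fin 3) :
    pderiv (i, c) (X (j, a) : MvPolynomial (ι × Fin 3) k) = 0 := by
  rw [pderiv_X, Pi.single_eq_of_ne]
  intro hcon
  exact h (congrArg Prod.fst hcon).symm

theorem brS_X (i : ι) (a : Fin 3) (F : MvPolynomial (ι × Fin 3) k) :
    brS Ω (X (i, a)) F = brB Ω i (X (i, a)) F := by
  rw [brS, Finset.sum_eq_single i]
  · intro j _ hj
    rw [brB]
    simp [pderiv_X_ne hj]
  · intro h; exact absurd (Finset.mem_univ i) h

theorem brS_X0 (i : ι) (F : MvPolynomial (ι × Fin 3) k) :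
    brS Ω (X (i, 0)) F = pderiv (i, 1) F * blk i (pderiv 2 (Ω i)) -
      pderiv (i, 2) F * blk i (pderiv 1 (Ω i)) := by
  have h0 : pderiv (i, 0) (X (i, 0) : MvPolynomial (ι × Fin 3) k) = 1 := pderiv_X_self _
  have h1 : pderiv (i, 1) (X (i, 0) : MvPolynomial (ι × Fin 3) k) = 0 :=
    pderiv_X_of_ne (by simp)
  have h2 : pderiv (i, 2) (X (i, 0) : MvPolynomial (ι × Fin 3) k) = 0 :=
    pderiv_X_of_ne (by simp)
  rw [brS_X, brB, h0, h1, h2]
  ring

theorem brS_X1 (i : ι) (F : MvPolynomial (ι × Fin 3) k) :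
    brS Ω (X (i, 1)) F = pderiv (i, 2) F * blk i (pderiv 0 (Ω i)) -
      pderiv (i, 0) F * blk i (pderiv 2 (Ω i)) := by
  have h0 : pderiv (i, 0) (X (i, 1) : MvPolynomial (ι × Fin 3) k) = 0 :=
    pderiv_X_of_ne (by simp)
  have h1 : pderiv (i, 1) (X (i, 1) : MvPolynomial (ι × Fin 3) k) = 1 := pderiv_X_self _
  have h2 : pderiv (i, 2) (X (i, 1) : MvPolynomial (ι × Fin 3) k) = 0 :=
    pderiv_X_of_ne (by simp)
  rw [brS_X, brB, h0, h1, h2]
  ring

/-- Brackets of generators of different blocks vanish. -/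
theorem brS_XX_ne {i j : ι} (h : i ≠ j) (a b : Fin 3) :
    brS Ω (X (i, a)) (X (j, b)) = 0 := by
  rw [brS_X, brB]
  simp [pderiv_X_ne h]

theorem pderiv_X_same (i : ι) (a c : Fin 3) :
    pderiv (i, c) (X (i, a) : MvPolynomial (ι × Fin 3) k) = if a = c then 1 else 0 := by
  rw [pderiv_X]
  by_cases h : a = c
  · subst h; simp
  · rw [if_neg h, Pi.single_eq_of_ne]
    intro hcon
    exact h (congrArg Prod.snd hcon)

theorem brS_XX (i : ι) (c : Fin 3) :
    brS Ω (X (i, c + 1)) (X (i, c + 2)) = blk i (pderiv c (Ω i)) := by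
  rw [brS_X, brB]
  simp only [pderiv_X_same]
  fin_cases c <;> simp

/-- The Pluecker relation for one block. -/
theorem pluecker (i : ι) (F G : MvPolynomial (ι × Fin 3) k) :
    blk i (pderiv 2 (Ω i)) * brB Ω i F G =
      brS Ω (X (i, 0)) F * brS Ω (X (i, 1)) G - brS Ω (X (i, 1)) F * brS Ω (X (i, 0)) G := by
  rw [brS_X0, brS_X0, brS_X1, brS_X1, brB]
  ring

/-- Degree bound for brackets with a generator. -/
theorem brS_X_degree {N : ι → ℕ} (hN : ∀ i, 2 ≤ N i) (hΩ : ∀ i, (Ω i).IsHomogeneous (N i)) (i : ι)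
    (F : MvPolynomial (ι × Fin 3) k) :
    (brS Ω (X (i, 0)) F).totalDegree ≤ F.totalDegree + (N i - 2) ∧
      (brS Ω (X (i, 1)) F).totalDegree ≤ F.totalDegree + (N i - 2) := by
  have hb : ∀ c, (blk i (pderiv c (Ω i))).totalDegree ≤ N i - 1 := fun c =>
    (blk_homog (pderiv_homog (hΩ i) c) i).totalDegree_le
  have key : ∀ c c' : Fin 3, (pderiv (i, c) F * blk i (pderiv c' (Ω i))).totalDegree ≤
      F.totalDegree + (N i - 2) := by
    intro c c'
    by_cases h0 : F.totalDegree = 0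
    · have : pderiv (i, c) F = 0 := by
        rw [totalDegree_eq_zero_iff_eq_C] at h0
        rw [h0, pderiv_C]
      rw [this]; simp
    · refine (totalDegree_mul _ _).trans ?_
      have h1 := totalDegree_pderiv_le F (i, c)
      have h2 := hb c'
      have h3 := hN i
      omega
  rw [brS_X0, brS_X1]
  constructor
  · exact (totalDegree_sub _ _).trans (max_le (key _ _) (key _ _))
  · exact (totalDegree_sub _ _).trans (max_le (key _ _) (key _ _))

end big

section gram

variable {T ι : Type*} [CommRing T] [Fintype ι] [DecidableEq ι]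

/-- The Gram determinant identity. -/
theorem gram (M : Matrix (Fin 2 × ι) (Fin 2 × ι) T) (w g : ι → T)
    (h : ∀ c c' : Fin 2 × ι,
      ∑ i, w i * (M (0, i) c * M (1, i) c' - M (1, i) c * M (0, i) c') =
        Matrix.blockDiagonal (fun l => !![0, g l; -g l, 0]) c c') :
    ∏ l, g l ^ 2 = M.det ^ 2 * ∏ i, w i ^ 2 := by
  have h1 : M.transpose * Matrix.blockDiagonal (fun i => !![0, w i; -w i, 0]) * M =
      Matrix.blockDiagonal (fun l => !![0, g l; -g l, 0]) := by
    ext c c'
    rw [← h c c', Matrix.mul_apply]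
    simp only [Matrix.mul_apply, Matrix.transpose_apply, Matrix.blockDiagonal_apply,
      Fintype.sum_prod_type, Fin.sum_univ_two, mul_ite, mul_zero, Finset.sum_ite_eq',
      Finset.mem_univ, if_true]
    rw [← Finset.sum_add_distrib]
    refine Finset.sum_congr rfl fun i _ => ?_
    simp
    ring
  have h2 := congrArg Matrix.det h1
  rw [Matrix.det_mul, Matrix.det_mul, Matrix.det_transpose, Matrix.det_blockDiagonal,
    Matrix.det_blockDiagonal] at h2
  simp only [Matrix.det_fin_two_of, zero_mul, mul_neg, zero_sub, neg_neg] at h2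
  have h3 : ∏ l, g l ^ 2 = ∏ l, g l * g l := Finset.prod_congr rfl fun l _ => by ring
  have h4 : ∏ l, w l ^ 2 = ∏ l, w l * w l := Finset.prod_congr rfl fun l _ => by ring
  rw [h3, h4, ← h2]
  ring

end gram

end Pool.Agent.Helper97.Dix
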