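import Mathlib
import Pool.Agent.Helper97.Dix.Br

set_option autoImplicit false

namespace Pool.Agent.Helper97.Dix

open MvPolynomial

section evalW

variable {k : Type*} [Field k] {σ : Type*} {T : Type*} [CommRing T] [Algebra k T]
  (π : MvPolynomial σ k →ₐ[k] T)

theorem aeval_mem_W {τ : Type*} (Y : τ → T) {m n : ℕ} (hY : ∀ p, Y p ∈ W π m)
    (F : MvPolynomial τ k) (hF : F.totalDegree ≤ n) : aeval Y F ∈ W π (n * m) := by
  rw [aeval_def, eval₂_eq]
  refine Submodule.sum_mem _ fun d hd => ?_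
  rw [← Algebra.smul_def]
  refine Submodule.smul_mem _ _ ?_
  have h1 := W_prod π d.support (fun i => Y i ^ d i) (fun i => d i * m)
    (fun i _ => W_pow π (hY i) (d i))
  refine W_mono π ?_ h1
  rw [← Finset.sum_mul]
  exact Nat.mul_le_mul_right _ ((le_totalDegree hd).trans hF)

end evalW

section main

variable {k : Type*} [Field k] {ι : Type*} [DecidableEq ι] [Fintype ι]
  {Ω : ι → MvPolynomial (Fin 3) k} {N : ι → ℕ} {ξ : ι → k}
  {T : Type*} [CommRing T] [Algebra k T] {π : MvPolynomial (ι × Fin 3) k →ₐ[k] T}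

theorem pderiv_ne_zero {Ω : MvPolynomial (Fin 3) k} {N : ℕ} (h : IsISPotential Ω N) (hN : 2 ≤ N) :
    pderiv 2 Ω ≠ 0 := by
  intro h0
  have hc : ∀ c, constantCoeff (pderiv c Ω) = 0 := fun c =>
    (pderiv_homog h.homogeneous c).coeff_eq_zero (by simp; omega)
  refine no_two h k (pderiv 0 Ω) (pderiv 1 Ω) (hc 0) (hc 1) fun c => ?_
  have : map (algebraMap k k) (pderiv c Ω) = pderiv c Ω := by
    rw [Algebra.algebraMap_self]
    exact MvPolynomial.map_id _
  rw [this]
  fin_cases c
  · exact Ideal.subset_span (by simp)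
  · exact Ideal.subset_span (by simp)
  · change pderiv 2 Ω ∈ _
    rw [h0]; exact Ideal.zero_mem _

theorem Setup.e_spec (S : Setup Ω N ξ π) (i : ι) :
    π (blk i (pderiv 2 (Ω i))) ≠ 0 ∧ D π (π (blk i (pderiv 2 (Ω i)))) = N i - 1 := by
  have h4 := S.four_le i
  refine S.D_of_homog (blk_homog (pderiv_homog (S.pot i).homogeneous 2) i) fun hmem => ?_
  exact pderiv_ne_zero (S.pot i) (by omega)
    (blk_mem_KI_of_lt S.pot S.one_le (pderiv_homog (S.pot i).homogeneous 2) (by omega) hmem)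

/-- The main degree inequality. -/
theorem Setup.main_bound (S : Setup Ω N ξ π) (br : T → T → T)
    (hbr : ∀ F G, br (π F) (π G) = π (brS Ω F G)) (A B : ι → T)
    (hAA : ∀ i j, i ≠ j → br (A i) (A j) = 0) (hAB : ∀ i j, i ≠ j → br (A i) (B j) = 0)
    (hBB : ∀ i j, i ≠ j → br (B i) (B j) = 0) (hne : ∀ i, br (A i) (B i) ≠ 0) :
    ∑ i, D π (br (A i) (B i)) + ∑ i, (N i - 1) ≤
      ∑ i, (D π (A i) + D π (B i)) + ∑ i, 2 * (N i - 2) := by
  have hnz := S.noZeroDivisors
  have hnt := S.nontrivial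
  have hself : ∀ a, br a a = 0 := by
    intro a
    obtain ⟨F, rfl⟩ := S.surj a
    rw [hbr, brS_self, map_zero]
  have hskew : ∀ a b, br a b = - br b a := by
    intro a b
    obtain ⟨F, rfl⟩ := S.surj a
    obtain ⟨G, rfl⟩ := S.surj b
    rw [hbr, hbr, brS_skew, map_neg]
  set e : ι → T := fun i => π (blk i (pderiv 2 (Ω i))) with he
  set E : T := ∏ i, e i with hE
  set w : ι → T := fun i => ∏ l ∈ Finset.univ.erase i, e l with hw
  have hwe : ∀ i, w i * e i = E := fun i => Finset.prod_erase_mul _ _ (Finset.mem_univ i)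
  have he0 : ∀ i, e i ≠ 0 := fun i => (S.e_spec i).1
  have hE0 : E ≠ 0 := Finset.prod_ne_zero_iff.mpr fun i _ => he0 i
  have hw0 : ∀ i, w i ≠ 0 := fun i => Finset.prod_ne_zero_iff.mpr fun l _ => he0 l
  set col : Fin 2 × ι → T := fun c => ![A c.2, B c.2] c.1 with hcol
  set M : Matrix (Fin 2 × ι) (Fin 2 × ι) T :=
    fun r c => br (π (X (r.2, Fin.castSucc r.1))) (col c) with hM
  have hplu : ∀ a b, ∑ i, w i * (br (π (X (i, 0))) a * br (π (X (i, 1))) b -
      br (π (X (i, 1))) a * br (π (X (i, 0))) b) = E * br a b := by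
    intro a b
    obtain ⟨F, rfl⟩ := S.surj a
    obtain ⟨G, rfl⟩ := S.surj b
    simp only [hbr]
    rw [brS, map_sum, Finset.mul_sum]
    refine Finset.sum_congr rfl fun i _ => ?_
    rw [← map_mul, ← map_mul, ← map_sub, ← pluecker, map_mul, ← mul_assoc, ← hwe i]
  have hgram := gram M w (fun l => E * br (A l) (B l)) (by
    intro c c'
    have h1 : ∑ i, w i * (M (0, i) c * M (1, i) c' - M (1, i) c * M (0, i) c') =
        E * br (col c) (col c') := hplu _ _
    rw [h1]
    obtain ⟨a, l⟩ := c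
    obtain ⟨b, l'⟩ := c'
    rw [Matrix.blockDiagonal_apply]
    by_cases hl : l = l'
    · subst hl
      simp only [if_true]
      fin_cases a <;> fin_cases b
      · simp [hcol, hself]
      · simp [hcol]
      · simp only [hcol]
        simp only [Fin.zero_eta, Fin.isValue, Fin.mk_one, Matrix.cons_val_one,
          Matrix.cons_val_fin_one, Matrix.cons_val_zero, Matrix.of_apply, Matrix.cons_val']
        rw [hskew, mul_neg]
      · simp [hcol, hself]
    · rw [if_neg hl]
      have : br (col (a, l)) (col (b, l')) = 0 := by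
        fin_cases a <;> fin_cases b
        · exact hAA l l' hl
        · exact hAB l l' hl
        · exact (hskew _ _).trans (neg_eq_zero.mpr (hAB l' l (Ne.symm hl)))
        · exact hBB l l' hl
      rw [this, mul_zero])
  have hgl : ∀ l, E * br (A l) (B l) ≠ 0 := fun l => _root_.mul_ne_zero hE0 (hne l)
  have hdet0 : M.det ≠ 0 := by
    intro h0
    rw [h0] at hgram
    simp only [ne_eq, OfNat.ofNat_ne_zero, not_false_eq_true, zero_pow, zero_mul] at hgram
    obtain ⟨l, -, hl⟩ := Finset.prod_eq_zero_iff.mp hgram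
    exact hgl l (pow_eq_zero_iff (two_ne_zero) |>.mp hl)
  have hD := congrArg (D π) hgram
  rw [S.D_prod _ _ (fun l _ => pow_ne_zero 2 (hgl l)),
    S.D_mul (pow_ne_zero 2 hdet0) (Finset.prod_ne_zero_iff.mpr fun l _ => pow_ne_zero 2 (hw0 l)),
    S.D_prod _ _ (fun l _ => pow_ne_zero 2 (hw0 l)), S.D_pow hdet0] at hD
  have hD1 : ∀ l, D π ((E * br (A l) (B l)) ^ 2) = 2 * (D π E + D π (br (A l) (B l))) := by
    intro l
    rw [S.D_pow (hgl l), S.D_mul hE0 (hne l)]
  have hD2 : ∀ l, D π (w l ^ 2) = 2 * D π (w l) := fun l => S.D_pow (hw0 l) 2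
  simp only [hD1, hD2] at hD
  have hD3 : ∀ l, D π (w l) + (N l - 1) = D π E := by
    intro l
    rw [← hwe l, S.D_mul (hw0 l) (he0 l)]
    congr 1
    exact (S.e_spec l).2.symm
  have hdetb : D π M.det ≤ ∑ i, 2 * (N i - 2) + ∑ i, (D π (A i) + D π (B i)) := by
    rw [← mem_W_iff π S.surj]
    have h1 := det_mem_W π M (fun r => N r.2 - 2) (fun c => D π (col c)) (by
      rintro ⟨a, i⟩ c
      obtain ⟨F, hF, hFc⟩ := (mem_W π).mp ((mem_W_iff π S.surj).mpr (le_refl (D π (col c))))
      have h2 := brS_X_degree Ω (N := N) (fun i => by have := S.four_le i; omega)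
        (fun i => (S.pot i).homogeneous) i F
      rw [mem_W]
      fin_cases a
      · refine ⟨brS Ω (X (i, 0)) F, h2.1.trans (by simp only; omega), ?_⟩
        rw [← hbr, hFc]
        rfl
      · refine ⟨brS Ω (X (i, 1)) F, h2.2.trans (by simp only; omega), ?_⟩
        rw [← hbr, hFc]
        rfl)
    have h3 : ∑ r : Fin 2 × ι, (N r.2 - 2) = ∑ i, 2 * (N i - 2) := by
      rw [Fintype.sum_prod_type, Fin.sum_univ_two, ← Finset.sum_add_distrib]
      exact Finset.sum_congr rfl fun i _ => by ring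
    have h4 : ∑ c, D π (col c) = ∑ i, (D π (A i) + D π (B i)) := by
      rw [Fintype.sum_prod_type, Fin.sum_univ_two, ← Finset.sum_add_distrib]
      exact Finset.sum_congr rfl fun i _ => by simp [hcol]
    rw [h3, h4] at h1
    exact h1
  have h5 : ∑ l, 2 * (D π E + D π (br (A l) (B l))) =
      2 * ∑ _l : ι, D π E + 2 * ∑ l, D π (br (A l) (B l)) := by
    rw [← Finset.mul_sum, Finset.sum_add_distrib, mul_add]
  have h6 : ∑ _l : ι, D π E = ∑ l, D π (w l) + ∑ l, (N l - 1) := by
    rw [← Finset.sum_add_distrib]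
    exact Finset.sum_congr rfl fun l _ => (hD3 l).symm
  rw [h5, ← Finset.mul_sum, h6] at hD
  omega

/-- Some partial derivative has the largest possible degree. -/
theorem Setup.exists_big (S : Setup Ω N ξ π) (i : ι) (Y : Fin 3 → T) (m : ℕ) (hm : 1 ≤ m)
    (hY : ∀ c, D π (Y c) ≤ m) (hY' : ∃ c, D π (Y c) = m) :
    ∃ c, (N i - 1) * m ≤ D π (aeval Y (pderiv c (Ω i))) := by
  have hN := S.four_le i
  by_contra hcon
  push Not at hcon
  obtain ⟨c, hc⟩ := hY'
  have hYc : Y c ≠ 0 := by
    intro h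
    rw [h, D_zero π S.surj] at hc
    omega
  obtain ⟨s, hs⟩ := exists_pow (S.pot i)
  obtain ⟨a, ha, ha'⟩ := hs c
  have h1 := congrArg (aeval Y) ha'
  rw [map_pow, aeval_X, map_sum] at h1
  have h2 : Y c ^ (s + (N i - 1)) ∈ W π (s * m + ((N i - 1) * m - 1)) := by
    rw [h1]
    refine Submodule.sum_mem _ fun j _ => ?_
    rw [map_mul]
    refine W_mul π ?_ ?_
    · exact aeval_mem_W π Y (fun p => (mem_W_iff π S.surj).mpr (hY p)) (a j) (ha j).totalDegree_le
    · rw [mem_W_iff π S.surj]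
      have := hcon j
      omega
  rw [mem_W_iff π S.surj, S.D_pow hYc, hc, add_mul] at h2
  have h3 : 1 ≤ (N i - 1) * m := Nat.mul_pos (by omega) hm
  omega

/-- Every injective endomorphism compatible with the bracket is surjective. -/
theorem Setup.degree_one (S : Setup Ω N ξ π) (br : T → T → T)
    (hbr : ∀ F G, br (π F) (π G) = π (brS Ω F G)) (φ : T →ₐ[k] T)
    (hφ : ∀ a b, φ (br a b) = br (φ a) (φ b)) (hinj : Function.Injective φ) (p : ι × Fin 3) :
    φ (π (X p)) ∈ W π 1 := by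
  have hnz := S.noZeroDivisors
  have hnt := S.nontrivial
  set Y : ι → Fin 3 → T := fun i c => φ (π (X (i, c))) with hY
  set m : ι → ℕ := fun i => Finset.univ.sup (fun c => D π (Y i c)) with hm
  have hle : ∀ i c, D π (Y i c) ≤ m i := fun i c =>
    Finset.le_sup (f := fun c => D π (Y i c)) (Finset.mem_univ c)
  have hat : ∀ i, ∃ c, D π (Y i c) = m i := by
    intro i
    obtain ⟨c, -, hc⟩ := Finset.exists_mem_eq_sup (Finset.univ : Finset (Fin 3))
      Finset.univ_nonempty (fun c => D π (Y i c))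
    exact ⟨c, hc.symm⟩
  have hYe : ∀ i f, φ (π (blk i f)) = aeval (Y i) f := by
    intro i f
    have : (φ.comp π).comp (blk i) = aeval (Y i) := by
      apply MvPolynomial.algHom_ext
      intro c
      simp [blk, hY]
    exact congrArg (fun g : MvPolynomial (Fin 3) k →ₐ[k] T => g f) this
  have hbrY : ∀ i c, br (Y i (c + 1)) (Y i (c + 2)) = aeval (Y i) (pderiv c (Ω i)) := by
    intro i c
    rw [← hYe, ← brS_XX, ← hbr, hφ]
  have hone : ∀ i, 1 ≤ m i := by
    intro i
    by_contra hlt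
    have hm0 : m i = 0 := by omega
    have h0 : Y i 0 ∈ W π 0 := (mem_W_iff π S.surj).mpr ((hle i 0).trans hm0.le)
    obtain ⟨F, hF, hF'⟩ := (mem_W π).mp h0
    have hFC := (totalDegree_eq_zero_iff_eq_C).mp (Nat.le_zero.mp hF)
    obtain ⟨G, hG'⟩ := S.surj (Y i 1)
    have hz : br (Y i 0) (Y i 1) = 0 := by
      rw [← hF', ← hG', hbr, hFC]
      have : brS Ω (C (coeff 0 F)) G = 0 :=
        Finset.sum_eq_zero fun j _ => by rw [brB]; simp
      rw [this, map_zero]
    have h1 := hbrY i 2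
    have h2 : (2 : Fin 3) + 1 = 0 := rfl
    have h3 : (2 : Fin 3) + 2 = 1 := rfl
    rw [h2, h3, hz, ← hYe] at h1
    have h4 := hinj (h1.symm.trans (map_zero φ).symm)
    exact (S.e_spec i).1 h4
  choose c hc using fun i => S.exists_big i (Y i) (m i) (hone i) (hle i) (hat i)
  have hcross : ∀ i j, i ≠ j → ∀ a b, br (Y i a) (Y j b) = 0 := by
    intro i j hij a b
    rw [hY]
    simp only
    rw [← hφ, hbr, brS_XX_ne Ω hij, map_zero, map_zero]
  have hbig : ∀ i, (N i - 1) * m i ≤ D π (br (Y i (c i + 1)) (Y i (c i + 2))) := by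
    intro i
    rw [hbrY]
    exact hc i
  have hmain := S.main_bound br hbr (fun i => Y i (c i + 1)) (fun i => Y i (c i + 2))
    (fun i j hij => hcross i j hij _ _) (fun i j hij => hcross i j hij _ _)
    (fun i j hij => hcross i j hij _ _) (by
      intro i h0
      have h1 := hbig i
      rw [h0, D_zero π S.surj] at h1
      have h2 : 1 ≤ (N i - 1) * m i := Nat.mul_pos (by have := S.four_le i; omega) (hone i)
      omega)
  have hm1 : ∀ i, m i = 1 := by
    by_contra hcon
    push Not at hcon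
    obtain ⟨i0, hi0⟩ := hcon
    have h1 : ∑ i, ((N i - 1) * m i + (N i - 1)) ≤ ∑ i, (2 * m i + 2 * (N i - 2)) := by
      calc ∑ i, ((N i - 1) * m i + (N i - 1)) = ∑ i, (N i - 1) * m i + ∑ i, (N i - 1) :=
            Finset.sum_add_distrib
        _ ≤ ∑ i, D π (br (Y i (c i + 1)) (Y i (c i + 2))) + ∑ i, (N i - 1) :=
            Nat.add_le_add_right (Finset.sum_le_sum fun i _ => hbig i) _
        _ ≤ ∑ i, (D π (Y i (c i + 1)) + D π (Y i (c i + 2))) + ∑ i, 2 * (N i - 2) := hmain
        _ ≤ ∑ i, 2 * m i + ∑ i, 2 * (N i - 2) := by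
            refine Nat.add_le_add_right (Finset.sum_le_sum fun i _ => ?_) _
            have h2 := hle i (c i + 1)
            have h3 := hle i (c i + 2)
            omega
        _ = ∑ i, (2 * m i + 2 * (N i - 2)) := Finset.sum_add_distrib.symm
    have h2 : ∑ i, (2 * m i + 2 * (N i - 2)) < ∑ i, ((N i - 1) * m i + (N i - 1)) := by
      apply Finset.sum_lt_sum
      · intro i _
        obtain ⟨n, hn⟩ : ∃ n, N i = n + 4 := ⟨N i - 4, by have := S.four_le i; omega⟩
        obtain ⟨l, hl⟩ : ∃ l, m i = l + 1 := ⟨m i - 1, by have := hone i; omega⟩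
        have e1 : n + 4 - 1 = n + 3 := by omega
        have e2 : n + 4 - 2 = n + 2 := by omega
        rw [hn, hl, e1, e2]
        nlinarith
      · refine ⟨i0, Finset.mem_univ _, ?_⟩
        obtain ⟨n, hn⟩ : ∃ n, N i0 = n + 4 := ⟨N i0 - 4, by have := S.four_le i0; omega⟩
        obtain ⟨l, hl⟩ : ∃ l, m i0 = l + 2 := ⟨m i0 - 2, by have := hone i0; omega⟩
        have e1 : n + 4 - 1 = n + 3 := by omega
        have e2 : n + 4 - 2 = n + 2 := by omega
        rw [hn, hl, e1, e2]
        nlinarith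
    omega
  obtain ⟨i, a⟩ := p
  rw [mem_W_iff π S.surj]
  have := hle i a
  rw [hm1 i] at this
  exact this

theorem Setup.dixmier (S : Setup Ω N ξ π) (br : T → T → T)
    (hbr : ∀ F G, br (π F) (π G) = π (brS Ω F G)) (φ : T →ₐ[k] T)
    (hφ : ∀ a b, φ (br a b) = br (φ a) (φ b)) (hinj : Function.Injective φ) :
    Function.Surjective φ := by
  have hdeg := S.degree_one br hbr φ hφ hinj
  have hV : ∀ f ∈ W π 1, φ f ∈ W π 1 := by
    intro f hf
    obtain ⟨F, hF, rfl⟩ := (mem_W π).mp hf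
    have h1 : φ (π F) = aeval (fun p => φ (π (X p))) F := by
      have : φ.comp π = aeval (fun p => φ (π (X p))) := by
        apply MvPolynomial.algHom_ext
        intro p
        simp
      exact congrArg (fun g : MvPolynomial (ι × Fin 3) k →ₐ[k] T => g F) this
    rw [h1]
    have h2 := aeval_mem_W π (fun p => φ (π (X p))) (m := 1) (n := 1) hdeg F hF
    rwa [Nat.mul_one] at h2
  have hfin : Module.Finite k (W π 1) := by
    unfold W
    infer_instance
  let ψ : W π 1 →ₗ[k] W π 1 := φ.toLinearMap.restrict hV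
  have hψ : Function.Injective ψ := by
    intro x y hxy
    apply Subtype.ext
    apply hinj
    exact congrArg Subtype.val hxy
  have hψs : Function.Surjective ψ := LinearMap.injective_iff_surjective.mp hψ
  have hgen : ∀ p, ∃ v, φ v = π (X p) := by
    intro p
    obtain ⟨v, hv⟩ := hψs ⟨π (X p), (mem_W π).mpr ⟨X p, by rw [totalDegree_X], rfl⟩⟩
    exact ⟨v, congrArg Subtype.val hv⟩
  intro t
  obtain ⟨F, rfl⟩ := S.surj t
  induction F using MvPolynomial.induction_on with
  | C r => exact ⟨algebraMap k T r, by rw [φ.commutes]; exact (π.commutes r).symm⟩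
  | add F G hF hG =>
    obtain ⟨a, ha⟩ := hF
    obtain ⟨b, hb⟩ := hG
    exact ⟨a + b, by rw [map_add, ha, hb, map_add]⟩
  | mul_X F p hF =>
    obtain ⟨a, ha⟩ := hF
    obtain ⟨v, hv⟩ := hgen p
    exact ⟨a * v, by rw [map_mul, ha, hv, map_mul]⟩

end main

end Pool.Agent.Helper97.Dix
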