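import Mathlib
import Pool.Agent.Helper97.Dix.Main

set_option autoImplicit false

namespace Pool.Agent.Helper97.Dix

open MvPolynomial TensorProduct

section tensor

variable {R ι : Type*} [CommRing R] [DecidableEq ι] {A : ι → Type*} [∀ i, CommRing (A i)]
  [∀ i, Algebra R (A i)]

/-- The bracket of a tensor product as a bilinear map. -/
noncomputable def tensorBrLin [Fintype ι] (br : (i : ι) → A i →ₗ[R] A i →ₗ[R] A i) :
    (⨂[R] i, A i) →ₗ[R] (⨂[R] i, A i) →ₗ[R] (⨂[R] i, A i) :=
  ∑ i, PiTensorProduct.map₂ (slot br i)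

theorem tensorBr_eq [Fintype ι] (br : (i : ι) → A i →ₗ[R] A i →ₗ[R] A i) (a b : ⨂[R] i, A i) :
    tensorBr br a b = tensorBrLin br a b := by
  simp only [tensorBr, tensorMap, tensorBrLin, LinearMap.sum_apply]

end tensor

variable {k : Type*} [Field k] {ι : Type*} [DecidableEq ι] [Fintype ι]
  {Ω : ι → MvPolynomial (Fin 3) k} {N : ι → ℕ} {ξ : ι → k}

/-- The plain tensor product type. -/
abbrev TP (Ω : ι → MvPolynomial (Fin 3) k) (ξ : ι → k) : Type _ :=
  ⨂[k] i, PotQuot (Ω i) (ξ i)

/-- The bracket of the tensor product as a bilinear map. -/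
noncomputable def tensBrLin (Ω : ι → MvPolynomial (Fin 3) k) (ξ : ι → k) :
    TP Ω ξ →ₗ[k] TP Ω ξ →ₗ[k] TP Ω ξ := tensorBrLin (fun i => quotBr (Ω i) (ξ i))

theorem tensBrLin_tprod (Ω : ι → MvPolynomial (Fin 3) k) (ξ : ι → k)
    (b c : (i : ι) → PotQuot (Ω i) (ξ i)) :
    tensBrLin Ω ξ (PiTensorProduct.tprod k b) (PiTensorProduct.tprod k c) =
      ∑ i, PiTensorProduct.tprod k
        (Function.update (b * c) i (quotBr (Ω i) (ξ i) (b i) (c i))) := by
  rw [tensBrLin, ← tensorBr_eq]
  exact tensorBr_tprod _ b c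

/-- The projection from the big polynomial ring. -/
noncomputable def bigPi (Ω : ι → MvPolynomial (Fin 3) k) (ξ : ι → k) :
    MvPolynomial (ι × Fin 3) k →ₐ[k] TP Ω ξ :=
  aeval fun p => PiTensorProduct.singleAlgHom (R := k) (A := fun i => PotQuot (Ω i) (ξ i)) p.1
    (potMk (Ω p.1) (ξ p.1) (X p.2))

theorem bigPi_blk (i : ι) (f : MvPolynomial (Fin 3) k) : bigPi Ω ξ (blk i f) =
    PiTensorProduct.singleAlgHom (R := k) (A := fun i => PotQuot (Ω i) (ξ i)) i
      (potMk (Ω i) (ξ i) f) := by
  have : (bigPi Ω ξ).comp (blk i) =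
      (PiTensorProduct.singleAlgHom (R := k) (A := fun i => PotQuot (Ω i) (ξ i)) i).comp
        (potMk (Ω i) (ξ i)) := by
    apply MvPolynomial.algHom_ext
    intro c
    simp [bigPi, blk]
  exact congrArg (fun g : MvPolynomial (Fin 3) k →ₐ[k] _ => g f) this

omit [DecidableEq ι] in
theorem algHom_prod {A T : Type*} [CommRing A] [Algebra k A] [CommRing T] [Algebra k T]
    (f : A →ₐ[k] T) (g : ι → A) : f (∏ i, g i) = ∏ i, f (g i) := map_prod f g _

theorem bigPi_prod (f : ι → MvPolynomial (Fin 3) k) : bigPi Ω ξ (∏ i, blk i (f i)) =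
    PiTensorProduct.tprod k
      (fun i => (potMk (Ω i) (ξ i) (f i) : PotQuot (Ω i) (ξ i))) := by
  refine (algHom_prod (T := TP Ω ξ) (bigPi Ω ξ) (fun i => blk i (f i))).trans ?_
  have h1 : ∀ i, bigPi Ω ξ (blk i (f i)) = PiTensorProduct.tprod k
      (Pi.mulSingle i (potMk (Ω i) (ξ i) (f i))) := by
    intro i
    rw [bigPi_blk]
    rfl
  refine (Finset.prod_congr rfl fun i _ => h1 i).trans ?_
  refine (PiTensorProduct.tprod_prod (R := k) (A := fun i => PotQuot (Ω i) (ξ i)) Finset.univ
    (fun i => Pi.mulSingle i (potMk (Ω i) (ξ i) (f i)))).symm.trans ?_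
  exact congrArg _ (Finset.univ_prod_mulSingle _)

theorem bigPi_surj : Function.Surjective (bigPi Ω ξ) := by
  intro t
  induction t using PiTensorProduct.induction_on with
  | smul_tprod r b =>
    choose f hf using fun i => potMk_surjective (Ω i) (ξ i) (b i)
    refine ⟨r • ∏ i, blk i (f i), ?_⟩
    rw [map_smul, bigPi_prod]
    congr 2
    ext i
    exact hf i
  | add a b ha hb =>
    obtain ⟨F, hF⟩ := ha
    obtain ⟨G, hG⟩ := hb
    exact ⟨F + G, by rw [map_add, hF, hG]⟩

/-- The map from one factor to the quotient of the big polynomial ring. -/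
noncomputable def factorHom (Ω : ι → MvPolynomial (Fin 3) k) (ξ : ι → k) (i : ι) :
    PotQuot (Ω i) (ξ i) →ₐ[k] MvPolynomial (ι × Fin 3) k ⧸ II Ω ξ Finset.univ :=
  Ideal.Quotient.liftₐ _ ((Ideal.Quotient.mkₐ k (II Ω ξ Finset.univ)).comp (blk i)) (by
    intro a ha
    obtain ⟨q, rfl⟩ := Ideal.mem_span_singleton'.mp ha
    have h1 : blk i (Ω i - C (ξ i)) ∈ II Ω ξ Finset.univ := by
      have : blk i (Ω i - C (ξ i)) = blk i (Ω i) - C (ξ i) := by
        rw [map_sub]
        congr 1
        exact (blk i).commutes _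
      rw [this]
      exact Ideal.subset_span ⟨i, by simp, rfl⟩
    have h2 := Ideal.Quotient.eq_zero_iff_mem.mpr h1
    rw [map_mul]
    change _ * Ideal.Quotient.mk _ (blk i (Ω i - C (ξ i))) = 0
    rw [h2, mul_zero])

theorem factor_one (Ω : ι → MvPolynomial (Fin 3) k) (ξ : ι → k) :
    ((MultilinearMap.mkPiAlgebra k ι (MvPolynomial (ι × Fin 3) k ⧸ II Ω ξ Finset.univ)
      ).compLinearMap (fun i => (factorHom Ω ξ i).toLinearMap)) 1 = 1 := by simp

theorem factor_mul (Ω : ι → MvPolynomial (Fin 3) k) (ξ : ι → k)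
    (x y : (i : ι) → PotQuot (Ω i) (ξ i)) :
    ((MultilinearMap.mkPiAlgebra k ι (MvPolynomial (ι × Fin 3) k ⧸ II Ω ξ Finset.univ)
      ).compLinearMap (fun i => (factorHom Ω ξ i).toLinearMap)) (x * y) =
    ((MultilinearMap.mkPiAlgebra k ι (MvPolynomial (ι × Fin 3) k ⧸ II Ω ξ Finset.univ)
      ).compLinearMap (fun i => (factorHom Ω ξ i).toLinearMap)) x *
    ((MultilinearMap.mkPiAlgebra k ι (MvPolynomial (ι × Fin 3) k ⧸ II Ω ξ Finset.univ)
      ).compLinearMap (fun i => (factorHom Ω ξ i).toLinearMap)) y := by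
  simp [Finset.prod_mul_distrib]

/-- The map from the tensor product to the quotient of the big polynomial ring. -/
noncomputable def tensToQuot (Ω : ι → MvPolynomial (Fin 3) k) (ξ : ι → k) :
    TP Ω ξ →ₐ[k] MvPolynomial (ι × Fin 3) k ⧸ II Ω ξ Finset.univ :=
  PiTensorProduct.liftAlgHom
    ((MultilinearMap.mkPiAlgebra k ι (MvPolynomial (ι × Fin 3) k ⧸ II Ω ξ Finset.univ)
      ).compLinearMap (fun i => (factorHom Ω ξ i).toLinearMap))
    (factor_one Ω ξ) (factor_mul Ω ξ)

theorem tensToQuot_bigPi (F : MvPolynomial (ι × Fin 3) k) :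
    tensToQuot Ω ξ (bigPi Ω ξ F) = Ideal.Quotient.mk _ F := by
  have : (tensToQuot Ω ξ).comp (bigPi Ω ξ) = Ideal.Quotient.mkₐ k _ := by
    apply MvPolynomial.algHom_ext
    rintro ⟨i, c⟩
    have h1 : bigPi Ω ξ (X (i, c)) = PiTensorProduct.tprod k
        (Pi.mulSingle i (potMk (Ω i) (ξ i) (X c))) := by
      simp [bigPi]
    rw [AlgHom.comp_apply, h1, tensToQuot]
    simp only [PiTensorProduct.liftAlgHom_apply, PiTensorProduct.lift.tprod,
      MultilinearMap.compLinearMap_apply, MultilinearMap.mkPiAlgebra_apply]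
    rw [Finset.prod_eq_single i]
    · rw [Pi.mulSingle_eq_same]
      change factorHom Ω ξ i (potMk (Ω i) (ξ i) (X c)) = _
      rw [factorHom]
      change Ideal.Quotient.mk _ (blk i (X c)) = Ideal.Quotient.mk _ (X (i, c))
      rw [blk_X]
    · intro j _ hj
      simp [Pi.mulSingle_eq_of_ne hj]
    · intro h; exact absurd (Finset.mem_univ i) h
  exact congrArg (fun g : MvPolynomial (ι × Fin 3) k →ₐ[k] _ => g F) this

theorem bigPi_ker (F : MvPolynomial (ι × Fin 3) k) :
    bigPi Ω ξ F = 0 ↔ F ∈ II Ω ξ Finset.univ := by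
  constructor
  · intro h
    rw [← Ideal.Quotient.eq_zero_iff_mem, ← tensToQuot_bigPi, h, map_zero]
  · intro h
    have hle : II Ω ξ Finset.univ ≤ RingHom.ker (bigPi Ω ξ) := by
      rw [II, Ideal.span_le]
      rintro _ ⟨i, -, rfl⟩
      change bigPi Ω ξ (blk i (Ω i) - C (ξ i)) = 0
      have h1 : (C (ξ i) : MvPolynomial (ι × Fin 3) k) = blk i (C (ξ i)) :=
        ((blk i).commutes _).symm
      rw [h1, ← map_sub, bigPi_blk]
      have h2 : potMk (Ω i) (ξ i) (Ω i - C (ξ i)) = 0 :=
        potMk_eq_zero.mpr (Ideal.subset_span rfl)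
      rw [h2, map_zero]
    exact hle h

/-! Compatibility of the brackets. -/

theorem pderiv_blk_self (i : ι) (c : Fin 3) (f : MvPolynomial (Fin 3) k) :
    pderiv (i, c) (blk i f) = blk i (pderiv c f) :=
  pderiv_rename (f := fun c : Fin 3 => (i, c)) (fun _ _ h => (Prod.ext_iff.mp h).2) c f

theorem pderiv_blk_ne {i j : ι} (h : i ≠ j) (c : Fin 3) (f : MvPolynomial (Fin 3) k) :
    pderiv (i, c) (blk j f) = 0 := by
  induction f using MvPolynomial.induction_on with
  | C r =>
    have : blk j (C r : MvPolynomial (Fin 3) k) = C r := (blk j).commutes r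
    rw [this, pderiv_C]
  | add f g hf hg => rw [map_add, map_add, hf, hg, add_zero]
  | mul_X f a hf => rw [map_mul, blk_X, Derivation.leibniz, pderiv_X_ne h, hf, smul_zero, smul_zero,
      add_zero]

theorem pderiv_prod_zero (i : ι) (c : Fin 3) (s : Finset ι) (hs : i ∉ s)
    (f : ι → MvPolynomial (Fin 3) k) :
    pderiv (i, c) (∏ j ∈ s, blk j (f j)) = 0 := by
  induction s using Finset.induction_on with
  | empty => simp
  | insert a s ha ih =>
    rw [Finset.mem_insert, not_or] at hs
    rw [Finset.prod_insert ha, Derivation.leibniz, ih hs.2, pderiv_blk_ne hs.1, smul_zero,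
      smul_zero, add_zero]

theorem pderiv_prod (i : ι) (c : Fin 3) (f : ι → MvPolynomial (Fin 3) k) :
    pderiv (i, c) (∏ j, blk j (f j)) =
      blk i (pderiv c (f i)) * ∏ j ∈ Finset.univ.erase i, blk j (f j) := by
  rw [← Finset.mul_prod_erase Finset.univ (fun j => blk j (f j)) (Finset.mem_univ i),
    Derivation.leibniz, pderiv_prod_zero i c _ (Finset.notMem_erase i _), smul_zero, zero_add,
    smul_eq_mul, pderiv_blk_self, mul_comm]

theorem brB_prod (i : ι) (f g : ι → MvPolynomial (Fin 3) k) :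
    brB Ω i (∏ j, blk j (f j)) (∏ j, blk j (g j)) =
      ∏ j, blk j (Function.update (f * g) i (jacBr (Ω i) (f i) (g i)) j) := by
  rw [← Finset.mul_prod_erase Finset.univ
    (fun j => blk j (Function.update (f * g) i (jacBr (Ω i) (f i) (g i)) j)) (Finset.mem_univ i)]
  have h1 : ∏ j ∈ Finset.univ.erase i,
      blk j (Function.update (f * g) i (jacBr (Ω i) (f i) (g i)) j) =
      (∏ j ∈ Finset.univ.erase i, blk j (f j)) * ∏ j ∈ Finset.univ.erase i, blk j (g j) := by
    rw [← Finset.prod_mul_distrib]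
    refine Finset.prod_congr rfl fun j hj => ?_
    rw [Function.update_of_ne (Finset.ne_of_mem_erase hj), Pi.mul_apply, map_mul]
  rw [h1, Function.update_self, jacBr_eq, brB]
  simp only [pderiv_prod, map_add, map_sub, map_mul]
  ring

theorem brS_add_left (F F' G : MvPolynomial (ι × Fin 3) k) :
    brS Ω (F + F') G = brS Ω F G + brS Ω F' G := by
  rw [brS, brS, brS, ← Finset.sum_add_distrib]
  refine Finset.sum_congr rfl fun i _ => ?_
  simp only [brB, map_add]
  ring

theorem brS_smul_left (r : k) (F G : MvPolynomial (ι × Fin 3) k) :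
    brS Ω (r • F) G = r • brS Ω F G := by
  rw [brS, brS, Finset.smul_sum]
  refine Finset.sum_congr rfl fun i _ => ?_
  simp only [brB, Derivation.map_smul]
  simp only [smul_eq_C_mul]
  ring

theorem brS_add_right (F G G' : MvPolynomial (ι × Fin 3) k) :
    brS Ω F (G + G') = brS Ω F G + brS Ω F G' := by
  rw [brS_skew, brS_add_left, neg_add, ← brS_skew, ← brS_skew]

theorem brS_smul_right (r : k) (F G : MvPolynomial (ι × Fin 3) k) :
    brS Ω F (r • G) = r • brS Ω F G := by
  rw [brS_skew, brS_smul_left, ← smul_neg, ← brS_skew]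

theorem mem_span_prod (F : MvPolynomial (ι × Fin 3) k) :
    F ∈ Submodule.span k
      (Set.range fun f : ι → MvPolynomial (Fin 3) k => ∏ i, blk i (f i)) := by
  induction F using MvPolynomial.induction_on with
  | C r =>
    have h1 : (C r : MvPolynomial (ι × Fin 3) k) = r • (1 : MvPolynomial (ι × Fin 3) k) := by
      rw [smul_eq_C_mul, mul_one]
    rw [h1]
    exact Submodule.smul_mem _ _ (Submodule.subset_span ⟨1, by simp⟩)
  | add F G hF hG => exact Submodule.add_mem _ hF hG
  | mul_X F p hF =>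
    induction hF using Submodule.span_induction with
    | mem x hx =>
      obtain ⟨f, rfl⟩ := hx
      refine Submodule.subset_span ⟨Function.update f p.1 (f p.1 * X p.2), ?_⟩
      dsimp only
      rw [← Finset.mul_prod_erase Finset.univ
        (fun j => blk j (Function.update f p.1 (f p.1 * X p.2) j)) (Finset.mem_univ p.1),
        ← Finset.mul_prod_erase Finset.univ (fun j => blk j (f j)) (Finset.mem_univ p.1),
        Function.update_self, map_mul, blk_X]
      have h1 : ∏ j ∈ Finset.univ.erase p.1, blk j (Function.update f p.1 (f p.1 * X p.2) j) =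
          ∏ j ∈ Finset.univ.erase p.1, blk j (f j) :=
        Finset.prod_congr rfl fun j hj => by
          rw [Function.update_of_ne (Finset.ne_of_mem_erase hj)]
      rw [h1]
      ring
    | zero => rw [zero_mul]; exact Submodule.zero_mem _
    | add x y _ _ hx hy => rw [add_mul]; exact Submodule.add_mem _ hx hy
    | smul r x _ hx => rw [smul_mul_assoc]; exact Submodule.smul_mem _ _ hx

theorem tensBr_bigPi (F G : MvPolynomial (ι × Fin 3) k) :
    tensBrLin Ω ξ (bigPi Ω ξ F) (bigPi Ω ξ G) = bigPi Ω ξ (brS Ω F G) := by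
  have hF := mem_span_prod F
  have hG := mem_span_prod G
  induction hF using Submodule.span_induction with
  | mem x hx =>
    obtain ⟨f, rfl⟩ := hx
    induction hG using Submodule.span_induction with
    | mem y hy =>
      obtain ⟨g, rfl⟩ := hy
      dsimp only
      rw [bigPi_prod, bigPi_prod, tensBrLin_tprod, brS, map_sum]
      refine Finset.sum_congr rfl fun i _ => ?_
      rw [brB_prod, bigPi_prod]
      congr 1
      ext j
      by_cases h : j = i
      · subst h
        rw [Function.update_self, Function.update_self, quotBr_mk]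
      · rw [Function.update_of_ne h, Function.update_of_ne h, Pi.mul_apply, Pi.mul_apply, map_mul]
    | zero =>
      have : brS Ω (∏ i, blk i (f i)) 0 = 0 := by
        have := brS_smul_right (Ω := Ω) (0 : k) (∏ i, blk i (f i)) 0
        rwa [zero_smul, zero_smul] at this
      rw [this, map_zero, map_zero]
    | add x y _ _ hx hy => rw [map_add, map_add, hx, hy, brS_add_right, map_add]
    | smul r x _ hx => rw [map_smul, map_smul, hx, brS_smul_right, map_smul]
  | zero =>
    have : brS Ω 0 G = 0 := by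
      have := brS_smul_left (Ω := Ω) (0 : k) 0 G
      rwa [zero_smul, zero_smul] at this
    rw [this, map_zero, map_zero, LinearMap.zero_apply]
  | add x y _ _ hx hy =>
    rw [map_add, map_add, LinearMap.add_apply, hx, hy, brS_add_left, map_add]
  | smul r x _ hx => rw [map_smul, map_smul, LinearMap.smul_apply, hx, brS_smul_left, map_smul]

/-- The projection, with values in the named type. -/
noncomputable def bigPi' (Ω : ι → MvPolynomial (Fin 3) k) (ξ : ι → k) :
    MvPolynomial (ι × Fin 3) k →ₐ[k] TensPot Ω ξ := bigPi Ω ξ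

theorem tens_setup (h : ∀ i, IsISPotential (Ω i) (N i)) (hN : ∀ i, 4 ≤ N i) :
    Setup Ω N ξ (bigPi' Ω ξ) :=
  ⟨h, hN, bigPi_surj, bigPi_ker⟩

theorem tensBr_bigPi' (F G : MvPolynomial (ι × Fin 3) k) :
    tensBr Ω ξ (bigPi' Ω ξ F) (bigPi' Ω ξ G) = bigPi' Ω ξ (brS Ω F G) :=
  (tensorBr_eq (fun i => quotBr (Ω i) (ξ i)) (bigPi Ω ξ F) (bigPi Ω ξ G)).trans
    (tensBr_bigPi F G)

/-- The Dixmier property of the tensor product. -/
theorem tens_dixmier (h : ∀ i, IsISPotential (Ω i) (N i)) (hN : ∀ i, 4 ≤ N i) :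
    IsDixmier Ω ξ := fun φ hφ hinj =>
  ⟨hinj, (tens_setup (ξ := ξ) h hN).dixmier (tensBr Ω ξ) tensBr_bigPi' φ hφ hinj⟩

end Pool.Agent.Helper97.Dix
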